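import Mathlib
import Pool.Graph.R_seed8.Helper834.EC.Tens1

/-!
Binary forms and eigenpoints of binary tensors.
-/

namespace Pool.Agent.H875.EC1

open Polynomial
open Pool.Agent.Helper834.EC

/-- `v_1 - i v_0`. -/
noncomputable def al (v : V 1) : ℂ := v 1 - Complex.I * v 0

/-- `v_1 + i v_0`. -/
noncomputable def be (v : V 1) : ℂ := v 1 + Complex.I * v 0

/-- The linear form attached to a vector. -/
noncomputable def lf (v : V 1) : ℂ[X] := C (be v) * X + C (al v)

/-- first isotropic coordinate -/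
noncomputable def uu (x : V 1) : ℂ := x 0 + Complex.I * x 1

/-- second isotropic coordinate -/
noncomputable def vv (x : V 1) : ℂ := x 0 - Complex.I * x 1

/-- value of the form of degree `d` -/
noncomputable def hev (d : ℕ) (P : ℂ[X]) (u v : ℂ) : ℂ := MvPolynomial.eval ![u, v] (P.homogenize d)

theorem hev_mul {m n : ℕ} (P Q : ℂ[X]) (hP : P.natDegree ≤ m) (hQ : Q.natDegree ≤ n) (u v : ℂ) :
    hev (m + n) (P * Q) u v = hev m P u v * hev n Q u v := by
  unfold hev
  rw [homogenize_mul _ _ hP hQ, map_mul]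

theorem hev_lin (a b u v : ℂ) : hev 1 (C b * X + C a) u v = b * u + a * v := by
  unfold hev
  simp [homogenize_X, homogenize_C, homogenize_C_mul]

theorem natDegree_lin_le (a b : ℂ) : (C b * X + C a : ℂ[X]).natDegree ≤ 1 := natDegree_linear_le

theorem hev_smul (d : ℕ) (c : ℂ) (P : ℂ[X]) (u v : ℂ) : hev d (C c * P) u v = c * hev d P u v := by
  unfold hev
  simp [homogenize_C_mul]

theorem hev_add (d : ℕ) (P Q : ℂ[X]) (u v : ℂ) : hev d (P + Q) u v = hev d P u v + hev d Q u v := by
  unfold hev
  simp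

theorem hev_prod {ι : Type*} (s : Finset ι) (a b : ι → ℂ) (u v : ℂ) :
    hev s.card (∏ i ∈ s, (C (b i) * X + C (a i))) u v = ∏ i ∈ s, (b i * u + a i * v) := by
  classical
  induction s using Finset.induction_on with
  | empty => simp [hev]
  | insert i s hi ih =>
    rw [Finset.prod_insert hi, Finset.prod_insert hi, Finset.card_insert_of_notMem hi, add_comm,
      hev_mul _ _ (natDegree_lin_le _ _), ih, hev_lin]
    refine (natDegree_prod_le _ _).trans ?_
    refine (Finset.sum_le_sum (fun j _ => natDegree_lin_le (a j) (b j))).trans ?_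
    simp

theorem hev_coeff_top (d : ℕ) (P : ℂ[X]) (u : ℂ) : hev d P u 0 = P.coeff d * u ^ d := by
  unfold hev homogenize
  rw [map_sum, Finset.sum_eq_single (d, 0)]
  · rw [MvPolynomial.eval_monomial]
    simp [Finsupp.prod_fintype]
  · rintro ⟨a, b⟩ hab hne
    rw [MvPolynomial.eval_monomial]
    have hb : b ≠ 0 := by
      rintro rfl
      rw [Finset.HasAntidiagonal.mem_antidiagonal] at hab
      exact hne (by simpa using hab)
    simp [Finsupp.prod_fintype, hb]
  · intro h
    exact absurd (Finset.HasAntidiagonal.mem_antidiagonal.mpr (by simp)) h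

theorem hev_of_ne {d : ℕ} {P : ℂ[X]} (hP : P.natDegree ≤ d) (u : ℂ) {v : ℂ} (hv : v ≠ 0) :
    hev d P u v = P.eval (u / v) * v ^ d := by
  unfold hev
  rw [eval_homogenize hP _ (by simpa using hv)]
  simp

/-- a root of a form splits off a linear factor -/
theorem exists_factor {d : ℕ} {P : ℂ[X]} (hP : P.natDegree ≤ d + 1) {u v : ℂ}
    (huv : u ≠ 0 ∨ v ≠ 0) (h : hev (d + 1) P u v = 0) :
    ∃ Q : ℂ[X], Q.natDegree ≤ d ∧ P = (C v * X + C (-u)) * Q := by
  by_cases hv : v = 0
  · subst hv
    have hu : u ≠ 0 := by simpa using huv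
    rw [hev_coeff_top] at h
    have h0 : P.coeff (d + 1) = 0 := by
      rcases mul_eq_zero.mp h with h | h
      · exact h
      · exact absurd h (pow_ne_zero _ hu)
    refine ⟨C (-u⁻¹) * P, ?_, ?_⟩
    · refine (natDegree_C_mul_le _ _).trans ?_
      rw [natDegree_le_iff_coeff_eq_zero]
      intro N hN
      rcases Nat.lt_or_ge (d + 1) N with h1 | h1
      · exact coeff_eq_zero_of_natDegree_lt (lt_of_le_of_lt hP h1)
      · have : N = d + 1 := by omega
        rw [this]; exact h0
    · rw [C_0, zero_mul, zero_add, ← mul_assoc, ← C_mul]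
      rw [neg_mul_neg, mul_inv_cancel₀ hu, C_1, one_mul]
  · rw [hev_of_ne hP u hv] at h
    have h0 : P.eval (u / v) = 0 := by
      rcases mul_eq_zero.mp h with h | h
      · exact h
      · exact absurd h (pow_ne_zero _ hv)
    obtain ⟨R, hR⟩ := dvd_iff_isRoot.mpr (show P.IsRoot (u / v) from h0)
    refine ⟨C v⁻¹ * R, ?_, ?_⟩
    · refine (natDegree_C_mul_le _ _).trans ?_
      by_cases hR0 : R = 0
      · rw [hR0]; simp
      · have : P.natDegree = 1 + R.natDegree := by
          rw [hR, natDegree_mul (X_sub_C_ne_zero _) hR0, natDegree_X_sub_C]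
        omega
    · rw [hR, ← mul_assoc]
      congr 1
      have h1 : (C v * X + C (-u) : ℂ[X]) = C v * (X - C (u / v)) := by
        rw [mul_sub, ← C_mul, mul_div_cancel₀ _ hv, C_neg, sub_eq_add_neg]
      rw [h1, mul_comm (C v), mul_assoc, ← C_mul, mul_inv_cancel₀ hv, C_1, mul_one]

theorem lf_ne_zero {v : V 1} (hv : v ≠ 0) : lf v ≠ 0 := by
  intro h
  apply hv
  have h1 : be v = 0 := by
    have := congrArg (fun p => p.coeff 1) h
    simpa [lf] using this
  have h2 : al v = 0 := by
    have := congrArg (fun p => p.coeff 0) h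
    simpa [lf] using this
  unfold be at h1
  unfold al at h2
  have h3 : v 1 = 0 := by linear_combination (h1 + h2) / 2
  have h4 : v 0 = 0 := by
    have : Complex.I * v 0 = 0 := by linear_combination (h1 - h2) / 2
    simpa using this
  funext i
  fin_cases i
  · exact h4
  · exact h3

theorem natDegree_lf_le (v : V 1) : (lf v).natDegree ≤ 1 := natDegree_lin_le _ _

theorem hev_lf (v x : V 1) : hev 1 (lf v) (uu x) (vv x) = 2 * (x 0 * v 1 - x 1 * v 0) := by
  unfold lf
  rw [hev_lin]
  unfold be al uu vv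
  linear_combination (2 * x 1 * v 0) * Complex.I_sq

theorem be_eq (v : V 1) : be v = Complex.I * vv v := by
  unfold be vv
  linear_combination (v 1) * Complex.I_sq

theorem al_eq (v : V 1) : al v = - (Complex.I * uu v) := by
  unfold al uu
  linear_combination (v 1) * Complex.I_sq

theorem lf_eq (v : V 1) : lf v = C Complex.I * (C (vv v) * X + C (-(uu v))) := by
  unfold lf
  rw [be_eq, al_eq]
  simp only [C_mul, C_neg]
  ring

theorem uv_ne_zero {v : V 1} (hv : v ≠ 0) : uu v ≠ 0 ∨ vv v ≠ 0 := by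
  by_contra h
  push Not at h
  apply lf_ne_zero hv
  rw [lf_eq, h.1, h.2]
  simp

/-- a root of a form splits off a linear factor -/
theorem exists_factor_lf {d : ℕ} {P : ℂ[X]} (hP : P.natDegree ≤ d + 1) {v : V 1}
    (hv : v ≠ 0) (h : hev (d + 1) P (uu v) (vv v) = 0) :
    ∃ Q : ℂ[X], Q.natDegree ≤ d ∧ P = lf v * Q := by
  obtain ⟨Q, hQ, hPQ⟩ := exists_factor hP (uv_ne_zero hv) h
  refine ⟨C (-Complex.I) * Q, (natDegree_C_mul_le _ _).trans hQ, ?_⟩
  rw [lf_eq, hPQ]
  have : (C Complex.I * C (-Complex.I) : ℂ[X]) = 1 := by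
    rw [← C_mul, mul_neg, Complex.I_mul_I, neg_neg, C_1]
  calc (C (vv v) * X + C (-uu v)) * Q = (C Complex.I * C (-Complex.I)) * ((C (vv v) * X + C (-uu v)) * Q) := by
        rw [this, one_mul]
    _ = _ := by ring

theorem det_eq_zero_iff {x v : V 1} (hv : v ≠ 0) :
    x 0 * v 1 - x 1 * v 0 = 0 ↔ ∃ s : ℂ, x = s • v := by
  constructor
  · intro h
    by_cases h0 : v 0 = 0
    · have h1 : v 1 ≠ 0 := by
        intro h1
        apply hv
        funext i
        fin_cases i
        · exact h0
        · exact h1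
      refine ⟨x 1 / v 1, ?_⟩
      rw [h0, mul_zero, sub_zero] at h
      have hx0 : x 0 = 0 := by simpa [h1] using h
      funext i
      fin_cases i
      · simp [hx0, h0]
      · simp [h1]
    · refine ⟨x 0 / v 0, ?_⟩
      funext i
      fin_cases i
      · simp [h0]
      · simp only [Fin.mk_one, Pi.smul_apply, smul_eq_mul]
        field_simp
        linear_combination -h
  · rintro ⟨s, rfl⟩
    simp only [Pi.smul_apply, smul_eq_mul]
    ring

end Pool.Agent.H875.EC1
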