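import Mathlib
import Pool.Graph.R_seed8.Helper834.EC.Defs

/-!
The scheme-theoretic version of the eigenconfigurations of binary tensors, and the binary form of
a group of points.
-/

namespace Pool.Agent.H875.EC1

open scoped LinearAlgebra.Projectivization
open Pool.Agent.Helper834.EC
open Polynomial

/-- The tuples `X = (X_1, ..., X_d)` such that, for some tensor `T`, `X_k` is the zero divisor of
the binary form `x_0 P_1(x) - x_1 P_0(x)`, `P = contract T k x`, for all `k`. -/
def schemeConfs (d : ℕ) : Set (Conf 1 d) :=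
  {X | ∃ T : Tensor 1 d, ∀ k, ∃ c : ℂ, c ≠ 0 ∧ ∀ x : V 1,
    x 0 * contract T k x 1 - x 1 * contract T k x 0 =
      c * ((X k : Multiset (ℙ ℂ (V 1))).map fun p => x 0 * p.rep 1 - x 1 * p.rep 0).prod}

/-- For homogeneous coordinates `y` of `d` groups of points of the projective line, the binary form
`∏_j (u β_j + v α_j)` of the `k`-th group, written with `u = X`, `v = 1`, where
`α_j = y_{j,1} - i y_{j,0}` and `β_j = y_{j,1} + i y_{j,0}`. With `u = x_0 + i x_1`,
`v = x_0 - i x_1` one has `u β_j + v α_j = 2 (x_0 y_{j,1} - x_1 y_{j,0})`, so it vanishes exactly at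
the points of the group. -/
noncomputable def groupForm {d : ℕ} (y : Coord 1 d) (k : Fin d) : ℂ[X] :=
  ∏ j : Fin (D 1 d), (C (y.1 ((k, j), 1) + Complex.I * y.1 ((k, j), 0)) * X +
    C (y.1 ((k, j), 1) - Complex.I * y.1 ((k, j), 0)))

end Pool.Agent.H875.EC1
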