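import Mathlib
import Pool.Agent.H875.EC1.Basic

/-!
The binary forms of the eigenschemes of a binary tensor.
-/

namespace Pool.Agent.H875.EC1

open Polynomial
open Pool.Agent.Helper834.EC

variable {d : ℕ}

noncomputable def pa : Fin 2 → ℂ := ![1, -Complex.I]
noncomputable def qa : Fin 2 → ℂ := ![1, Complex.I]

/-- sign -/
noncomputable def sg (k m : Fin d) : ℂ := if m = k then -1 else 1

/-- The binary form (dehomogenised) `x ∧ (T contracted with x^{d-1} away from k)`, in isotropic
coordinates. -/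
noncomputable def MM (T : Tensor 1 d) (k : Fin d) : ℂ[X] :=
  ∑ i : Fin d → Fin 2, C (Complex.I / 2 ^ d * T i) *
    ∏ m, (C (pa (i m)) * X + C (sg k m * qa (i m)))

theorem natDegree_prod_lin_le (a b : Fin d → ℂ) :
    (∏ m, (C (b m) * X + C (a m)) : ℂ[X]).natDegree ≤ d := by
  refine (natDegree_prod_le _ _).trans ?_
  refine (Finset.sum_le_sum (fun j _ => natDegree_lin_le (a j) (b j))).trans ?_
  simp

theorem natDegree_MM (T : Tensor 1 d) (k : Fin d) : (MM T k).natDegree ≤ d := by
  unfold MM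
  apply natDegree_sum_le_of_forall_le
  intro i _
  exact (natDegree_C_mul_le _ _).trans (natDegree_prod_lin_le _ _)

theorem hev_sum {ι : Type*} (s : Finset ι) (P : ι → ℂ[X]) (u v : ℂ) :
    hev d (∑ i ∈ s, P i) u v = ∑ i ∈ s, hev d (P i) u v := by
  unfold hev
  rw [homogenize_finsetSum, map_sum]

theorem hev_prod_univ (a b : Fin d → ℂ) (u v : ℂ) :
    hev d (∏ m, (C (b m) * X + C (a m))) u v = ∏ m, (b m * u + a m * v) := by
  have := hev_prod (Finset.univ : Finset (Fin d)) a b u v
  rwa [Finset.card_univ, Fintype.card_fin] at this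

theorem hev_MM (T : Tensor 1 d) (k : Fin d) (u v : ℂ) :
    hev d (MM T k) u v = ∑ i : Fin d → Fin 2, Complex.I / 2 ^ d * T i *
      ∏ m, (pa (i m) * u + sg k m * qa (i m) * v) := by
  unfold MM
  rw [hev_sum]
  refine Finset.sum_congr rfl fun i _ => ?_
  rw [hev_smul, hev_prod_univ]

theorem key_ne (x : V 1) (a : Fin 2) : pa a * uu x + qa a * vv x = 2 * x a := by
  fin_cases a
  · simp [pa, qa, uu, vv]; ring
  · simp [pa, qa, uu, vv]
    linear_combination (-2 * x 1) * Complex.I_sq

theorem key_eq (x : V 1) (a : Fin 2) : pa a * uu x - qa a * vv x =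
    2 * (-Complex.I) * (x 0 * (if a = 1 then 1 else 0) - x 1 * (if a = 0 then 1 else 0)) := by
  fin_cases a
  · simp [pa, qa, uu, vv]; ring
  · simp [pa, qa, uu, vv]; ring

theorem hev_MM_eq (T : Tensor 1 d) (k : Fin d) (x : V 1) :
    hev d (MM T k) (uu x) (vv x) = minorR T k x 0 1 := by
  rw [hev_MM]
  unfold minorR contractR
  rw [Finset.mul_sum, Finset.mul_sum, ← Finset.sum_sub_distrib]
  refine Finset.sum_congr rfl fun i _ => ?_
  rw [← Finset.mul_prod_erase _ _ (Finset.mem_univ k)]
  have h1 : ∏ m ∈ Finset.univ.erase k, (pa (i m) * uu x + sg k m * qa (i m) * vv x) =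
      2 ^ (d - 1) * ∏ m ∈ Finset.univ.erase k, x (i m) := by
    have : ∀ m ∈ Finset.univ.erase k, (pa (i m) * uu x + sg k m * qa (i m) * vv x) =
        2 * x (i m) := by
      intro m hm
      have hmk : m ≠ k := (Finset.mem_erase.mp hm).1
      unfold sg
      rw [if_neg hmk, one_mul, key_ne]
    rw [Finset.prod_congr rfl this, Finset.prod_mul_distrib, Finset.prod_const,
      Finset.card_erase_of_mem (Finset.mem_univ k), Finset.card_univ, Fintype.card_fin]
  have h2 : pa (i k) * uu x + sg k k * qa (i k) * vv x = 2 * (-Complex.I) *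
      (x 0 * (if i k = 1 then 1 else 0) - x 1 * (if i k = 0 then 1 else 0)) := by
    rw [← key_eq]
    unfold sg
    rw [if_pos rfl]; ring
  rw [h1, h2]
  have hd : d = (d - 1) + 1 := by have := k.pos; omega
  have h3 : (2 : ℂ) ^ d = 2 ^ (d - 1) * 2 := by
    conv_lhs => rw [hd]
    rw [pow_succ]
  have h4 : (2 : ℂ) ^ (d - 1) ≠ 0 := pow_ne_zero _ two_ne_zero
  rw [h3]
  have e1 : (1 : Fin 2) ≠ 0 := by decide
  rcases Fin.exists_fin_two.mp ⟨i k, rfl⟩ with h | h
  · rw [h]
    simp only [if_true, if_neg e1, if_neg e1.symm]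
    field_simp
    linear_combination (T i * x 1 * ∏ m ∈ Finset.univ.erase k, x (i m)) * Complex.I_sq
  · rw [h]
    simp only [if_true, if_neg e1, if_neg e1.symm]
    field_simp
    linear_combination (-T i * x 0 * ∏ m ∈ Finset.univ.erase k, x (i m)) * Complex.I_sq

theorem isEig_iff (T : Tensor 1 d) (k : Fin d) (x : V 1) :
    IsEig T k x ↔ hev d (MM T k) (uu x) (vv x) = 0 := by
  rw [hev_MM_eq]
  constructor
  · intro h; exact h 0 1
  · intro h a b
    fin_cases a <;> fin_cases b
    · unfold minorR; simp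
    · exact h
    · unfold minorR at h ⊢
      simp only [Fin.zero_eta, Fin.mk_one]
      linear_combination -h
    · unfold minorR; simp

theorem hev_zero_one (P : ℂ[X]) (hP : P.natDegree ≤ d) : hev d P 0 1 = P.coeff 0 := by
  rw [hev_of_ne hP 0 one_ne_zero]
  simp [coeff_zero_eq_eval_zero]

theorem hev_one_zero (P : ℂ[X]) : hev d P 1 0 = P.coeff d := by
  rw [hev_coeff_top]; simp

theorem prod_sg (k : Fin d) : ∏ m, sg k m = -1 := by
  unfold sg
  rw [Finset.prod_ite_eq' Finset.univ k (fun _ => (-1 : ℂ))]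
  simp

theorem coeff_zero_MM (T : Tensor 1 d) (k : Fin d) :
    (MM T k).coeff 0 = ∑ i : Fin d → Fin 2, Complex.I / 2 ^ d * T i * (-∏ m, qa (i m)) := by
  rw [← hev_zero_one _ (natDegree_MM T k), hev_MM]
  refine Finset.sum_congr rfl fun i _ => ?_
  congr 1
  have : ∀ m, (pa (i m) * 0 + sg k m * qa (i m) * 1) = sg k m * qa (i m) := by intro m; ring
  rw [Finset.prod_congr rfl (fun m _ => this m), Finset.prod_mul_distrib, prod_sg]
  ring

theorem coeff_top_MM (T : Tensor 1 d) (k : Fin d) :
    (MM T k).coeff d = ∑ i : Fin d → Fin 2, Complex.I / 2 ^ d * T i * (∏ m, pa (i m)) := by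
  rw [← hev_one_zero (MM T k), hev_MM]
  refine Finset.sum_congr rfl fun i _ => ?_
  congr 1
  refine Finset.prod_congr rfl fun m _ => ?_
  ring

theorem sum_sg_prod (p q : Fin d → ℂ) :
    ∑ k, ∏ m, (C (p m) * X + C (sg k m * q m) : ℂ[X]) =
      2 * (X * derivative (∏ m, (C (p m) * X + C (q m)))) - C (d : ℂ) * ∏ m, (C (p m) * X + C (q m)) := by
  have h1 : ∀ k, ∏ m, (C (p m) * X + C (sg k m * q m) : ℂ[X]) =
      2 * (X * ((∏ m ∈ Finset.univ.erase k, (C (p m) * X + C (q m))) * C (p k))) -
        ∏ m, (C (p m) * X + C (q m)) := by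
    intro k
    rw [← Finset.mul_prod_erase _ _ (Finset.mem_univ k), ← Finset.mul_prod_erase _
      (fun m => (C (p m) * X + C (q m) : ℂ[X])) (Finset.mem_univ k)]
    have h2 : ∏ m ∈ Finset.univ.erase k, (C (p m) * X + C (sg k m * q m) : ℂ[X]) =
        ∏ m ∈ Finset.univ.erase k, (C (p m) * X + C (q m) : ℂ[X]) := by
      refine Finset.prod_congr rfl fun m hm => ?_
      have hmk : m ≠ k := (Finset.mem_erase.mp hm).1
      unfold sg
      rw [if_neg hmk, one_mul]
    rw [h2]
    have h3 : sg k k = -1 := by unfold sg; rw [if_pos rfl]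
    rw [h3]
    simp only [neg_mul, one_mul, C_neg]
    ring
  have h5 : derivative (∏ m, (C (p m) * X + C (q m) : ℂ[X])) =
      ∑ k, (∏ m ∈ Finset.univ.erase k, (C (p m) * X + C (q m))) * C (p k) := by
    rw [derivative_prod_finset]
    refine Finset.sum_congr rfl fun k _ => ?_
    have : derivative (C (p k) * X + C (q k) : ℂ[X]) = C (p k) := by simp
    rw [this]
  have h6 : ∑ _k : Fin d, (∏ m, (C (p m) * X + C (q m)) : ℂ[X]) =
      C (d : ℂ) * ∏ m, (C (p m) * X + C (q m)) := by
    rw [Finset.sum_const, Finset.card_univ, Fintype.card_fin, nsmul_eq_mul, C_eq_natCast]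
  rw [h5, ← h6, Finset.mul_sum, Finset.mul_sum, ← Finset.sum_sub_distrib]
  exact Finset.sum_congr rfl (fun k _ => h1 k)

theorem coeff_half_sum_MM (hd : 3 ≤ d) (he : Even d) (T : Tensor 1 d) :
    ∑ k, (MM T k).coeff (d / 2) = 0 := by
  rw [← finsetSum_coeff]
  unfold MM
  rw [Finset.sum_comm, finsetSum_coeff]
  refine Finset.sum_eq_zero fun i _ => ?_
  rw [← Finset.mul_sum, coeff_C_mul, sum_sg_prod]
  have h2 : (2 : ℂ[X]) = C 2 := rfl
  rw [h2, coeff_sub, coeff_C_mul, coeff_C_mul]
  obtain ⟨r, hr⟩ := he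
  obtain ⟨s, hs⟩ : ∃ s, d / 2 = s + 1 := ⟨d / 2 - 1, by omega⟩
  rw [hs, coeff_X_mul, coeff_derivative]
  have hd2 : (d : ℂ) = 2 * ((s : ℂ) + 1) := by
    have : d = 2 * (s + 1) := by omega
    rw [this]; push_cast; ring
  rw [hd2]
  ring

theorem MM_add (T T' : Tensor 1 d) (k : Fin d) : MM (T + T') k = MM T k + MM T' k := by
  unfold MM
  rw [← Finset.sum_add_distrib]
  refine Finset.sum_congr rfl fun i _ => ?_
  rw [Pi.add_apply, mul_add, C_add, add_mul]

theorem MM_smul (c : ℂ) (T : Tensor 1 d) (k : Fin d) : MM (c • T) k = C c * MM T k := by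
  unfold MM
  rw [Finset.mul_sum]
  refine Finset.sum_congr rfl fun i _ => ?_
  rw [Pi.smul_apply, smul_eq_mul, ← mul_assoc (C c), ← C_mul]
  congr 2
  ring

theorem MM_zero (k : Fin d) : MM (0 : Tensor 1 d) k = 0 := by
  unfold MM
  refine Finset.sum_eq_zero fun i _ => ?_
  simp

theorem MM_sum {ι : Type*} (s : Finset ι) (T : ι → Tensor 1 d) (k : Fin d) :
    MM (∑ i ∈ s, T i) k = ∑ i ∈ s, MM (T i) k := by
  classical
  induction s using Finset.induction_on with
  | empty => simp [MM_zero]
  | insert a s ha ih => rw [Finset.sum_insert ha, Finset.sum_insert ha, MM_add, ih]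

theorem MM_rankone (w : Fin d → Fin 2 → ℂ) (k : Fin d) :
    MM (fun i => ∏ m, w m (i m)) k =
      C (Complex.I / 2 ^ d) * ∏ m, ∑ a : Fin 2, C (w m a) * (C (pa a) * X + C (sg k m * qa a)) := by
  unfold MM
  rw [Finset.prod_univ_sum, Finset.mul_sum]
  simp only [Fintype.piFinset_univ]
  refine Finset.sum_congr rfl fun i _ => ?_
  rw [Finset.prod_mul_distrib, C_mul, ← map_prod, mul_assoc]

/-- isotropic rank one tensor -/
noncomputable def ES (S : Finset (Fin d)) : Tensor 1 d :=
  fun i => ∏ m, (if m ∈ S then ![1, Complex.I] else ![1, -Complex.I] : Fin 2 → ℂ) (i m)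

theorem MM_ES (S : Finset (Fin d)) (k : Fin d) :
    MM (ES S) k = C (Complex.I * (if k ∈ S then 1 else -1)) * X ^ S.card := by
  classical
  unfold ES
  rw [MM_rankone (fun m => (if m ∈ S then ![1, Complex.I] else ![1, -Complex.I] : Fin 2 → ℂ))]
  have h1 : ∀ m : Fin d, ∑ a : Fin 2, C ((if m ∈ S then ![1, Complex.I] else ![1, -Complex.I] :
      Fin 2 → ℂ) a) * (C (pa a) * X + C (sg k m * qa a) : ℂ[X]) =
      C 2 * ((if m ∈ S then X else 1) * C (if m ∈ S then 1 else sg k m)) := by
    intro m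
    rw [Fin.sum_univ_two]
    have hI : (C Complex.I * C Complex.I : ℂ[X]) = -1 := by
      rw [← C_mul, Complex.I_mul_I, C_neg, C_1]
    have h2 : (C 2 : ℂ[X]) = 2 := rfl
    rw [h2]
    split_ifs with h
    · simp only [Matrix.cons_val_zero, Matrix.cons_val_one, pa, qa, C_1, C_neg, C_mul]
      linear_combination (-X + C (sg k m)) * hI
    · simp only [Matrix.cons_val_zero, Matrix.cons_val_one, pa, qa, C_1, C_neg, C_mul]
      linear_combination (X - C (sg k m)) * hI
  rw [Finset.prod_congr rfl (fun m _ => h1 m), Finset.prod_mul_distrib, Finset.prod_mul_distrib,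
    Finset.prod_const, Finset.card_univ, Fintype.card_fin]
  have h3 : (∏ m, (if m ∈ S then X else 1) : ℂ[X]) = X ^ S.card := by
    rw [Finset.prod_ite]
    simp
  have h4 : (∏ m, C (if m ∈ S then 1 else sg k m) : ℂ[X]) = C (if k ∈ S then 1 else -1) := by
    rw [← map_prod]
    congr 1
    split_ifs with hk
    · refine Finset.prod_eq_one fun m _ => ?_
      split_ifs with hm
      · rfl
      · unfold sg
        rw [if_neg]
        rintro rfl
        exact hm hk
    · rw [Finset.prod_eq_single k]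
      · rw [if_neg hk]; unfold sg; rw [if_pos rfl]
      · intro m _ hm
        split_ifs
        · rfl
        · unfold sg; rw [if_neg hm]
      · intro h; exact absurd (Finset.mem_univ _) h
  rw [h3, h4]
  have h5 : (2 : ℂ) ^ d ≠ 0 := pow_ne_zero _ two_ne_zero
  have h6 : (C (Complex.I / 2 ^ d) * C 2 ^ d : ℂ[X]) = C Complex.I := by
    rw [← C_pow, ← C_mul, div_mul_cancel₀ _ h5]
  rw [C_mul]
  linear_combination (X ^ S.card * C (if k ∈ S then 1 else -1)) * h6

/-- vectors of coefficients of `X^r` realised by tensors -/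
noncomputable def Wr (d r : ℕ) : Submodule ℂ (Fin d → ℂ) where
  carrier := {z | ∃ T : Tensor 1 d, ∀ k, MM T k = C (z k) * X ^ r}
  add_mem' := by
    rintro z z' ⟨T, hT⟩ ⟨T', hT'⟩
    refine ⟨T + T', fun k => ?_⟩
    rw [MM_add, hT, hT', Pi.add_apply, C_add, add_mul]
  zero_mem' := ⟨0, fun k => by simp [MM_zero]⟩
  smul_mem' := by
    rintro c z ⟨T, hT⟩
    refine ⟨c • T, fun k => ?_⟩
    rw [MM_smul, hT, Pi.smul_apply, smul_eq_mul, C_mul, mul_assoc]

theorem mem_Wr {r : ℕ} (z : Fin d → ℂ) : z ∈ Wr d r ↔ ∃ T : Tensor 1 d, ∀ k, MM T k = C (z k) * X ^ r :=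
  Iff.rfl

/-- sign vector -/
noncomputable def ep (S : Finset (Fin d)) : Fin d → ℂ := fun k => if k ∈ S then 1 else -1

theorem ep_mem (S : Finset (Fin d)) : ep S ∈ Wr d S.card := by
  have h : ep S = (-Complex.I) • fun k => Complex.I * (if k ∈ S then 1 else -1) := by
    funext k
    simp only [ep, Pi.smul_apply, smul_eq_mul]
    linear_combination (if k ∈ S then 1 else -1 : ℂ) * Complex.I_sq
  rw [h]
  apply Submodule.smul_mem
  exact ⟨ES S, fun k => MM_ES S k⟩

theorem delta_mem {r : ℕ} (h1 : 1 ≤ r) (h2 : r + 1 ≤ d) (a b : Fin d) :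
    (Pi.single a 1 - Pi.single b 1 : Fin d → ℂ) ∈ Wr d r := by
  classical
  by_cases hab : a = b
  · subst hab; rw [sub_self]; exact Submodule.zero_mem _
  have hc : r - 1 ≤ ((Finset.univ.erase a).erase b).card := by
    rw [Finset.card_erase_of_mem (Finset.mem_erase.mpr ⟨fun h => hab h.symm, Finset.mem_univ _⟩),
      Finset.card_erase_of_mem (Finset.mem_univ _), Finset.card_univ, Fintype.card_fin]
    omega
  obtain ⟨S, hS, hScard⟩ := Finset.exists_subset_card_eq hc
  have haS : a ∉ S := by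
    intro h
    have := hS h
    simp at this
  have hbS : b ∉ S := by
    intro h
    have := hS h
    simp at this
  have e1 := ep_mem (insert a S)
  have e2 := ep_mem (insert b S)
  rw [Finset.card_insert_of_notMem haS, hScard, Nat.sub_add_cancel h1] at e1
  rw [Finset.card_insert_of_notMem hbS, hScard, Nat.sub_add_cancel h1] at e2
  have h : (Pi.single a 1 - Pi.single b 1 : Fin d → ℂ) =
      (1 / 2 : ℂ) • (ep (insert a S) - ep (insert b S)) := by
    funext k
    simp only [ep, Pi.smul_apply, smul_eq_mul, Pi.sub_apply, Finset.mem_insert, Pi.single_apply]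
    by_cases hka : k = a
    · subst hka
      simp [hab, haS]
      norm_num
    · by_cases hkb : k = b
      · subst hkb
        simp [hka, hbS]
        norm_num
      · simp [hka, hkb]
  rw [h]
  exact Submodule.smul_mem _ _ (Submodule.sub_mem _ e1 e2)

theorem sumzero_mem {r : ℕ} (h1 : 1 ≤ r) (h2 : r + 1 ≤ d) (z : Fin d → ℂ) (hz : ∑ k, z k = 0) :
    z ∈ Wr d r := by
  classical
  have h0 : 0 < d := by omega
  have h : z = ∑ a, z a • (Pi.single a 1 - Pi.single ⟨0, h0⟩ 1 : Fin d → ℂ) := by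
    rw [Finset.sum_congr rfl (fun a _ => smul_sub (z a) _ _), Finset.sum_sub_distrib,
      ← Finset.sum_smul, hz, zero_smul, sub_zero]
    funext k
    rw [Finset.sum_apply]
    simp [Pi.single_apply]
  rw [h]
  exact Submodule.sum_mem _ fun a _ => Submodule.smul_mem _ _ (delta_mem h1 h2 _ _)

theorem all_mem {r : ℕ} (h1 : 1 ≤ r) (h2 : r + 1 ≤ d) (h3 : 2 * r ≠ d) (z : Fin d → ℂ) :
    z ∈ Wr d r := by
  classical
  have hc : r ≤ (Finset.univ : Finset (Fin d)).card := by
    rw [Finset.card_univ, Fintype.card_fin]; omega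
  obtain ⟨S, -, hS⟩ := Finset.exists_subset_card_eq hc
  have e1 := ep_mem S
  rw [hS] at e1
  have hsum : ∑ k, ep S k = 2 * (r : ℂ) - d := by
    have : ∀ k, ep S k = 2 * (if k ∈ S then 1 else 0) - 1 := by
      intro k
      unfold ep
      split_ifs <;> norm_num
    rw [Finset.sum_congr rfl (fun k _ => this k), Finset.sum_sub_distrib, ← Finset.mul_sum]
    simp [hS]
  have hne : (2 * (r : ℂ) - d) ≠ 0 := by
    intro h
    apply h3
    have : ((2 * r : ℕ) : ℂ) = (d : ℂ) := by push_cast; linear_combination h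
    exact_mod_cast this
  set c := (∑ k, z k) / (2 * (r : ℂ) - d) with hcdef
  have h4 : z - c • ep S ∈ Wr d r := by
    apply sumzero_mem h1 h2
    simp only [Pi.sub_apply, Pi.smul_apply, smul_eq_mul]
    rw [Finset.sum_sub_distrib, ← Finset.mul_sum, hsum, hcdef, div_mul_cancel₀ _ hne, sub_self]
  have h5 : z = (z - c • ep S) + c • ep S := by abel
  rw [h5]
  exact Submodule.add_mem _ h4 (Submodule.smul_mem _ _ e1)

/-- every compatible family of binary forms comes from a tensor -/
theorem exists_tensor (hd : 3 ≤ d) (m : Fin d → ℂ[X]) (hm : ∀ k, (m k).natDegree ≤ d)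
    (h0 : ∀ k l, (m k).coeff 0 = (m l).coeff 0) (h1 : ∀ k l, (m k).coeff d = (m l).coeff d)
    (h2 : Even d → ∑ k, (m k).coeff (d / 2) = 0) : ∃ T : Tensor 1 d, ∀ k, MM T k = m k := by
  classical
  have h0' : 0 < d := by omega
  have key : ∀ r ∈ Finset.range (d + 1), (fun k => (m k).coeff r) ∈ Wr d r := by
    intro r hr
    rw [Finset.mem_range] at hr
    rcases Nat.eq_zero_or_pos r with hr0 | hr0
    · subst hr0
      have e1 := ep_mem (∅ : Finset (Fin d))
      rw [Finset.card_empty] at e1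
      have h : (fun k => (m k).coeff 0) = (-(m ⟨0, h0'⟩).coeff 0) • ep (∅ : Finset (Fin d)) := by
        funext k
        simp [ep]
        exact h0 _ _
      rw [h]
      exact Submodule.smul_mem _ _ e1
    · rcases Nat.lt_or_ge r d with hrd | hrd
      · by_cases h3 : 2 * r = d
        · have he : Even d := ⟨r, by omega⟩
          have := h2 he
          have hrr : d / 2 = r := by omega
          rw [hrr] at this
          exact sumzero_mem hr0 (by omega) _ this
        · exact all_mem hr0 (by omega) h3 _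
      · have hrd' : r = d := by omega
        subst hrd'
        have e1 := ep_mem (Finset.univ : Finset (Fin r))
        rw [Finset.card_univ, Fintype.card_fin] at e1
        have h : (fun k => (m k).coeff r) = ((m ⟨0, h0'⟩).coeff r) • ep (Finset.univ : Finset (Fin r)) := by
          funext k
          simp [ep]
          exact h1 _ _
        rw [h]
        exact Submodule.smul_mem _ _ e1
  choose! T hT using key
  refine ⟨∑ r ∈ Finset.range (d + 1), T r, fun k => ?_⟩
  rw [MM_sum]
  conv_rhs => rw [(m k).as_sum_range_C_mul_X_pow' (Nat.lt_succ_of_le (hm k))]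
  exact Finset.sum_congr rfl fun r hr => hT r hr k

end Pool.Agent.H875.EC1
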