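import Mathlib
import Pool.Agent.H875.EC1.Tens

/-!
Factorisation of binary forms and limits.
-/

namespace Pool.Agent.H875.EC1

open Polynomial Filter Topology
open scoped LinearAlgebra.Projectivization
open Pool.Agent.Helper834.EC

theorem lf_smul (c : ℂ) (v : V 1) : lf (c • v) = C c * lf v := by
  unfold lf al be
  simp only [Pi.smul_apply, smul_eq_mul, C_add, C_sub, C_mul]
  ring

/-- the form attached to a multiset of points -/
noncomputable def Fm (S : Multiset (ℙ ℂ (V 1))) : ℂ[X] := (S.map fun p => lf p.rep).prod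

theorem Fm_cons (p : ℙ ℂ (V 1)) (S : Multiset (ℙ ℂ (V 1))) : Fm (p ::ₘ S) = lf p.rep * Fm S := by
  unfold Fm; simp

theorem Fm_zero : Fm 0 = 1 := by unfold Fm; simp

theorem Fm_ne_zero (S : Multiset (ℙ ℂ (V 1))) : Fm S ≠ 0 := by
  induction S using Multiset.induction_on with
  | empty => rw [Fm_zero]; exact one_ne_zero
  | cons p S ih => rw [Fm_cons]; exact mul_ne_zero (lf_ne_zero p.rep_nonzero) ih

theorem natDegree_Fm (S : Multiset (ℙ ℂ (V 1))) : (Fm S).natDegree ≤ Multiset.card S := by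
  induction S using Multiset.induction_on with
  | empty => rw [Fm_zero]; simp
  | cons p S ih =>
    rw [Fm_cons, Multiset.card_cons]
    refine natDegree_mul_le.trans ?_
    have := natDegree_lf_le p.rep
    omega

theorem hev_Fm (S : Multiset (ℙ ℂ (V 1))) (x : V 1) :
    hev (Multiset.card S) (Fm S) (uu x) (vv x) =
      (S.map fun p => 2 * (x 0 * p.rep 1 - x 1 * p.rep 0)).prod := by
  induction S using Multiset.induction_on with
  | empty => rw [Fm_zero]; simp [hev]
  | cons p S ih =>
    rw [Fm_cons, Multiset.card_cons, add_comm, hev_mul _ _ (natDegree_lf_le _) (natDegree_Fm S), ih,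
      Multiset.map_cons, Multiset.prod_cons, hev_lf]

theorem eq_mk_of_det {x : V 1} (hx : x ≠ 0) (p : ℙ ℂ (V 1))
    (h : x 0 * p.rep 1 - x 1 * p.rep 0 = 0) : Projectivization.mk ℂ x hx = p := by
  obtain ⟨s, hs⟩ := (det_eq_zero_iff p.rep_nonzero).mp h
  rw [← p.mk_rep, Projectivization.mk_eq_mk_iff']
  exact ⟨s, hs.symm⟩

theorem hev_Fm_eq_zero_iff (S : Multiset (ℙ ℂ (V 1))) {x : V 1} (hx : x ≠ 0) :
    hev (Multiset.card S) (Fm S) (uu x) (vv x) = 0 ↔ Projectivization.mk ℂ x hx ∈ S := by
  rw [hev_Fm, Multiset.prod_eq_zero_iff, Multiset.mem_map]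
  constructor
  · rintro ⟨p, hp, h⟩
    have h1 : x 0 * p.rep 1 - x 1 * p.rep 0 = 0 := by
      rcases mul_eq_zero.mp h with h | h
      · norm_num at h
      · exact h
    rw [eq_mk_of_det hx p h1]; exact hp
  · intro h
    refine ⟨_, h, ?_⟩
    have : x 0 * (Projectivization.mk ℂ x hx).rep 1 - x 1 * (Projectivization.mk ℂ x hx).rep 0 = 0 := by
      rw [det_eq_zero_iff (Projectivization.rep_nonzero _)]
      obtain ⟨a, ha⟩ := Projectivization.exists_smul_eq_mk_rep ℂ x hx
      refine ⟨(a⁻¹ : ℂˣ), ?_⟩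
      rw [← ha]
      show x = ((a⁻¹ : ℂˣ) : ℂ) • ((a : ℂ) • x)
      rw [smul_smul, Units.inv_mul, one_smul]
    rw [this, mul_zero]

/-- unique factorisation -/
theorem Fm_inj (S : Multiset (ℙ ℂ (V 1))) : ∀ (S' : Multiset (ℙ ℂ (V 1))),
    Multiset.card S = Multiset.card S' →
    ∀ c : ℂ, c ≠ 0 → Fm S = C c * Fm S' → S = S' := by
  induction S using Multiset.induction_on with
  | empty =>
    intro S' hcard c hc h
    rw [Multiset.card_zero] at hcard
    exact (Multiset.card_eq_zero.mp hcard.symm).symm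
  | cons p S ih =>
    intro S' hcard c hc h
    have h1 : hev (Multiset.card (p ::ₘ S)) (Fm (p ::ₘ S)) (uu p.rep) (vv p.rep) = 0 := by
      rw [hev_Fm_eq_zero_iff _ p.rep_nonzero, p.mk_rep]
      exact Multiset.mem_cons_self _ _
    rw [h, hcard, hev_smul] at h1
    have h2 : hev (Multiset.card S') (Fm S') (uu p.rep) (vv p.rep) = 0 := by
      rcases mul_eq_zero.mp h1 with h1 | h1
      · exact absurd h1 hc
      · exact h1
    rw [hev_Fm_eq_zero_iff _ p.rep_nonzero, p.mk_rep] at h2
    obtain ⟨S'', rfl⟩ := Multiset.exists_cons_of_mem h2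
    congr 1
    rw [Multiset.card_cons, Multiset.card_cons] at hcard
    refine ih S'' (by omega) c hc ?_
    rw [Fm_cons, Fm_cons] at h
    apply mul_left_cancel₀ (lf_ne_zero p.rep_nonzero)
    rw [h]; ring

/-- a form vanishing on a multiset of distinct points is a multiple of its form -/
theorem exists_mul_Fm (S : Multiset (ℙ ℂ (V 1))) (hS : S.Nodup) : ∀ (e : ℕ) (P : ℂ[X]),
    P.natDegree ≤ e + Multiset.card S →
    (∀ p ∈ S, hev (e + Multiset.card S) P (uu p.rep) (vv p.rep) = 0) →
    ∃ Q : ℂ[X], Q.natDegree ≤ e ∧ P = Fm S * Q := by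
  induction S using Multiset.induction_on with
  | empty =>
    intro e P hP _
    rw [Multiset.card_zero, add_zero] at hP
    exact ⟨P, hP, by rw [Fm_zero, one_mul]⟩
  | cons p S ih =>
    intro e P hP h
    rw [Multiset.nodup_cons] at hS
    rw [Multiset.card_cons] at hP h
    obtain ⟨Q, hQ, hPQ⟩ := exists_factor_lf (d := e + Multiset.card S) hP p.rep_nonzero
      (h p (Multiset.mem_cons_self _ _))
    have h2 : ∀ q ∈ S, hev (e + Multiset.card S) Q (uu q.rep) (vv q.rep) = 0 := by
      intro q hq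
      have h3 := h q (Multiset.mem_cons_of_mem hq)
      rw [hPQ, show e + (Multiset.card S + 1) = 1 + (e + Multiset.card S) by ring,
        hev_mul _ _ (natDegree_lf_le _) hQ, hev_lf] at h3
      rcases mul_eq_zero.mp h3 with h3 | h3
      · exfalso
        apply hS.1
        have h4 : q.rep 0 * p.rep 1 - q.rep 1 * p.rep 0 = 0 := by
          rcases mul_eq_zero.mp h3 with h3 | h3
          · norm_num at h3
          · exact h3
        have h5 := eq_mk_of_det q.rep_nonzero p h4
        rw [q.mk_rep] at h5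
        rw [← h5]; exact hq
      · exact h3
    obtain ⟨R, hR, hQR⟩ := ih hS.2 e Q hQ h2
    exact ⟨R, hR, by rw [hPQ, hQR, Fm_cons, mul_assoc]⟩

/-- every nonzero form is a product of linear forms -/
theorem exists_Fm (e : ℕ) : ∀ P : ℂ[X], P ≠ 0 → P.natDegree ≤ e →
    ∃ S : Multiset (ℙ ℂ (V 1)), Multiset.card S = e ∧ ∃ c : ℂ, c ≠ 0 ∧ P = C c * Fm S := by
  induction e with
  | zero =>
    intro P hP h
    refine ⟨0, rfl, P.coeff 0, ?_, ?_⟩
    · intro h0
      apply hP
      rw [eq_C_of_natDegree_le_zero h, h0, C_0]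
    · rw [Fm_zero, mul_one]
      exact eq_C_of_natDegree_le_zero h
  | succ e ih =>
    intro P hP h
    -- a zero of the form
    have h1 : ∃ x : V 1, x ≠ 0 ∧ hev (e + 1) P (uu x) (vv x) = 0 := by
      have huv : ∀ u v : ℂ, ∃ x : V 1, uu x = u ∧ vv x = v := by
        intro u v
        refine ⟨![(u + v) / 2, (u - v) / (2 * Complex.I)], ?_, ?_⟩
        · unfold uu
          simp only [Matrix.cons_val_zero, Matrix.cons_val_one]
          field_simp
          ring
        · unfold vv
          simp only [Matrix.cons_val_zero, Matrix.cons_val_one]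
          field_simp
          ring
      by_cases h0 : P.coeff (e + 1) = 0
      · obtain ⟨x, hx1, hx2⟩ := huv 1 0
        refine ⟨x, ?_, ?_⟩
        · rintro rfl
          simp [uu] at hx1
        · rw [hx1, hx2, hev_coeff_top, h0, zero_mul]
      · have hdeg : P.degree ≠ 0 := by
          intro hd
          apply h0
          apply coeff_eq_zero_of_degree_lt
          rw [hd]
          exact_mod_cast Nat.succ_pos e
        obtain ⟨z, hz⟩ := IsAlgClosed.exists_root P hdeg
        obtain ⟨x, hx1, hx2⟩ := huv z 1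
        refine ⟨x, ?_, ?_⟩
        · rintro rfl
          simp [vv] at hx2
        · rw [hx1, hx2, hev_of_ne h _ one_ne_zero, div_one, show P.eval z = 0 from hz, zero_mul]
    obtain ⟨x, hx, hx0⟩ := h1
    obtain ⟨Q, hQ, hPQ⟩ := exists_factor_lf h hx hx0
    have hQ0 : Q ≠ 0 := by
      rintro rfl
      exact hP (by rw [hPQ, mul_zero])
    obtain ⟨S, hS, c, hc, hQS⟩ := ih Q hQ0 hQ
    obtain ⟨a, ha⟩ := Projectivization.exists_smul_eq_mk_rep ℂ x hx
    refine ⟨Projectivization.mk ℂ x hx ::ₘ S, by rw [Multiset.card_cons, hS], (a⁻¹ : ℂˣ) * c,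
      mul_ne_zero (Units.ne_zero _) hc, ?_⟩
    have hrep : (Projectivization.mk ℂ x hx).rep = (a : ℂ) • x := ha.symm
    rw [hPQ, hQS, Fm_cons, hrep, lf_smul]
    have h2 : (C ((a⁻¹ : ℂˣ) : ℂ) * C (a : ℂ) : ℂ[X]) = 1 := by
      rw [← C_mul, Units.inv_mul, C_1]
    rw [C_mul]
    linear_combination (-(C c) * lf x * Fm S) * h2

end Pool.Agent.H875.EC1
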