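import Mathlib
import Pool.Agent.H875.EC1.Forms

/-!
Closed sets of configurations and limits of forms.
-/

namespace Pool.Agent.H875.EC1

open Polynomial Filter Topology
open scoped LinearAlgebra.Projectivization
open Pool.Agent.Helper834.EC

variable {d : ℕ}

theorem D_one (hd : 3 ≤ d) : D 1 d = d := by
  unfold D
  obtain ⟨e, rfl⟩ : ∃ e, d = e + 3 := ⟨d - 3, by omega⟩
  have h1 : (e + 3 - 1) ^ (1 + 1) - 1 = (e + 3) * (e + 3 - 2) := by
    have : (e + 3 - 1) ^ (1 + 1) = (e + 3) * (e + 3 - 2) + 1 := by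
      have h2 : e + 3 - 1 = e + 2 := by omega
      have h3 : e + 3 - 2 = e + 1 := by omega
      rw [h2, h3]; ring
    omega
  rw [h1]
  exact Nat.mul_div_cancel _ (by omega)

theorem aff_isClosed_iff' {σ : Type} (Z : Set (Aff σ)) :
    IsClosed Z ↔ ∃ S : Set (MvPolynomial σ ℂ), Z = zeros S := by
  rw [← isOpen_compl_iff]
  show Zᶜᶜ ∈ {Z | ∃ S : Set (MvPolynomial σ ℂ), Z = zeros S} ↔ _
  rw [compl_compl]
  exact Iff.rfl

theorem conf_isClosed_iff {n d : ℕ} (C : Set (Conf n d)) :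
    IsClosed C ↔ ∃ S : Set (MvPolynomial ((Fin d × Fin (D n d)) × Fin (n + 1)) ℂ),
      ∀ y : Coord n d, toConf y ∈ C ↔ ∀ f ∈ S, MvPolynomial.eval (fun i => y.1 i) f = 0 := by
  have h0 : IsClosed C ↔ IsClosed (toConf ⁻¹' C : Set (Coord n d)) := isClosed_coinduced
  rw [h0, isClosed_induced_iff]
  constructor
  · rintro ⟨Z, hZ, hZC⟩
    obtain ⟨S, rfl⟩ := (aff_isClosed_iff' Z).mp hZ
    refine ⟨S, fun y => ?_⟩
    have : y ∈ (toConf ⁻¹' C : Set (Coord n d)) ↔ y.1 ∈ zeros S := by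
      rw [← hZC]; rfl
    exact this
  · rintro ⟨S, hS⟩
    refine ⟨zeros S, (aff_isClosed_iff' _).mpr ⟨S, rfl⟩, ?_⟩
    ext y
    exact (hS y).symm

/-- the multiset of points in the `k`-th group -/
def pts (X : Conf 1 d) (k : Fin d) : Multiset (ℙ ℂ (V 1)) := (X k).1

theorem card_pts (X : Conf 1 d) (k : Fin d) : Multiset.card (pts X k) = D 1 d := (X k).2

theorem conf_ext {X X' : Conf 1 d} (h : ∀ k, pts X k = pts X' k) : X = X' := by
  funext k
  exact Subtype.ext (h k)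

/-- a vector of homogeneous coordinates -/
def vec {σ : Type} (y : Aff (σ × Fin 2)) (i : σ) : V 1 := fun a => y (i, a)

theorem pts_toConf (y : Coord 1 d) (k : Fin d) : pts (toConf y) k =
    Finset.univ.val.map fun j : Fin (D 1 d) =>
      Projectivization.mk ℂ (vec y.1 (k, j)) (y.2 (k, j)) := rfl

/-- the form of the `k`-th group of points in homogeneous coordinates -/
noncomputable def Fy (y : Aff ((Fin d × Fin (D 1 d)) × Fin 2)) (k : Fin d) : ℂ[X] :=
  ∏ j : Fin (D 1 d), lf (vec y (k, j))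

theorem Fy_eq (y : Coord 1 d) (k : Fin d) :
    ∃ c : ℂ, c ≠ 0 ∧ Fy y.1 k = C c * Fm (pts (toConf y) k) := by
  have h1 : ∀ j : Fin (D 1 d), ∃ c : ℂ, c ≠ 0 ∧ lf (vec y.1 (k, j)) =
      C c * lf (Projectivization.mk ℂ (vec y.1 (k, j)) (y.2 (k, j))).rep := by
    intro j
    obtain ⟨a, ha⟩ := Projectivization.exists_smul_eq_mk_rep ℂ
      (vec y.1 (k, j)) (y.2 (k, j))
    refine ⟨(a⁻¹ : ℂˣ), Units.ne_zero _, ?_⟩
    rw [← ha]
    show _ = C ((a⁻¹ : ℂˣ) : ℂ) * lf ((a : ℂ) • (vec y.1 (k, j)))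
    rw [lf_smul, ← mul_assoc, ← C_mul, Units.inv_mul, C_1, one_mul]
  choose c hc hcl using h1
  refine ⟨∏ j, c j, Finset.prod_ne_zero_iff.mpr fun j _ => hc j, ?_⟩
  unfold Fy
  rw [Finset.prod_congr rfl (fun j _ => hcl j), Finset.prod_mul_distrib, ← map_prod]
  congr 1
  rw [pts_toConf]
  unfold Fm
  rw [Multiset.map_map]
  rfl

theorem exists_coord (X : Conf 1 d) : ∃ y : Coord 1 d, toConf y = X ∧
    ∀ i, ‖vec y.1 i‖ = 1 := by
  have h1 : ∀ k : Fin d, ∃ w : Fin (D 1 d) → ℙ ℂ (V 1),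
      pts X k = Finset.univ.val.map w := by
    intro k
    have hS := card_pts X k
    generalize pts X k = S at hS
    obtain ⟨l, rfl⟩ := Quot.exists_rep S
    have hl : l.length = D 1 d := hS
    refine ⟨fun j => l.get (j.cast hl.symm), ?_⟩
    show (Multiset.ofList l) = _
    rw [Fin.univ_val_map]
    congr 1
    apply List.ext_get
    · simp [hl]
    · intro i h1 h2
      simp
  choose w hw using h1
  have h2 : ∀ p : ℙ ℂ (V 1), ∃ v : V 1, ∃ hv : v ≠ 0, Projectivization.mk ℂ v hv = p ∧ ‖v‖ = 1 := by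
    intro p
    have hn : ‖p.rep‖ ≠ 0 := norm_ne_zero_iff.mpr p.rep_nonzero
    have hn' : ((‖p.rep‖ : ℂ))⁻¹ ≠ 0 := inv_ne_zero (by exact_mod_cast hn)
    refine ⟨((‖p.rep‖ : ℂ))⁻¹ • p.rep, smul_ne_zero hn' p.rep_nonzero, ?_, ?_⟩
    · conv_rhs => rw [← p.mk_rep]
      rw [Projectivization.mk_eq_mk_iff']
      exact ⟨((‖p.rep‖ : ℂ))⁻¹, rfl⟩
    · rw [norm_smul, norm_inv, Complex.norm_real, norm_norm, inv_mul_cancel₀ hn]
  choose v hv hvp hvn using h2
  refine ⟨⟨fun ia => v (w ia.1.1 ia.1.2) ia.2, fun i => hv (w i.1 i.2)⟩, ?_, fun i => hvn _⟩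
  apply conf_ext
  intro k
  rw [hw k, pts_toConf]
  congr 1
  funext j
  exact hvp (w k j)

/-- the tuple of forms `m` is the tuple of forms of a configuration in `C` -/
def InC (C' : Set (Conf 1 d)) (m : Fin d → ℂ[X]) : Prop :=
  ∃ X ∈ C', ∀ k, ∃ c : ℂ, c ≠ 0 ∧ m k = C c * Fm (pts X k)

theorem mem_of_InC {C' : Set (Conf 1 d)} {m : Fin d → ℂ[X]} (h : InC C' m) (X : Conf 1 d)
    (hX : ∀ k, ∃ c : ℂ, c ≠ 0 ∧ m k = C c * Fm (pts X k)) : X ∈ C' := by
  obtain ⟨X', hX', h'⟩ := h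
  have : X = X' := by
    apply conf_ext
    intro k
    obtain ⟨c, hc, h1⟩ := hX k
    obtain ⟨c', hc', h2⟩ := h' k
    refine Fm_inj _ _ ?_ (c⁻¹ * c') (mul_ne_zero (inv_ne_zero hc) hc') ?_
    · rw [card_pts, card_pts]
    · have h3 : (C c⁻¹ * C c : ℂ[X]) = 1 := by rw [← C_mul, inv_mul_cancel₀ hc, C_1]
      calc Fm (pts X k) = (C c⁻¹ * C c) * Fm (pts X k) := by
            rw [h3, one_mul]
        _ = C c⁻¹ * (C c * Fm (pts X k)) := by rw [mul_assoc]
        _ = C (c⁻¹ * c') * Fm (pts X' k) := by rw [← h1, h2, C_mul, mul_assoc]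
  rw [this]; exact hX'

theorem continuous_coeff_prod {σ ι : Type*} [TopologicalSpace σ] (s : Finset ι) (a b : ι → σ → ℂ)
    (ha : ∀ i, Continuous (a i)) (hb : ∀ i, Continuous (b i)) (r : ℕ) :
    Continuous fun y => (∏ i ∈ s, (C (b i y) * X + C (a i y)) : ℂ[X]).coeff r := by
  classical
  induction s using Finset.induction_on generalizing r with
  | empty => simp only [Finset.prod_empty]; exact continuous_const
  | insert i s hi ih =>
    have h : ∀ y, (∏ j ∈ insert i s, (C (b j y) * X + C (a j y)) : ℂ[X]).coeff r =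
        b i y * (if r = 0 then 0 else (∏ j ∈ s, (C (b j y) * X + C (a j y)) : ℂ[X]).coeff (r - 1)) +
          a i y * (∏ j ∈ s, (C (b j y) * X + C (a j y)) : ℂ[X]).coeff r := by
      intro y
      rw [Finset.prod_insert hi, add_mul, coeff_add, coeff_C_mul, mul_assoc, coeff_C_mul]
      congr 2
      cases r with
      | zero => simp
      | succ r => simp [coeff_X_mul]
    simp only [h]
    refine ((hb i).mul ?_).add ((ha i).mul (ih r))
    split_ifs
    · exact continuous_const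
    · exact ih (r - 1)

theorem continuous_coeff_Fy (k : Fin d) (r : ℕ) :
    Continuous fun y : (Fin d × Fin (D 1 d)) × Fin 2 → ℂ => (Fy y k).coeff r := by
  have := continuous_coeff_prod (σ := (Fin d × Fin (D 1 d)) × Fin 2 → ℂ)
    (Finset.univ : Finset (Fin (D 1 d)))
    (fun j y => y ((k, j), 1) - Complex.I * y ((k, j), 0))
    (fun j y => y ((k, j), 1) + Complex.I * y ((k, j), 0)) (fun j => by fun_prop)
    (fun j => by fun_prop) r
  exact this

theorem isCompact_K : IsCompact {y : (Fin d × Fin (D 1 d)) × Fin 2 → ℂ |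
    ∀ i, ‖(fun a => y (i, a))‖ = 1} := by
  apply Metric.isCompact_of_isClosed_isBounded
  · have : {y : (Fin d × Fin (D 1 d)) × Fin 2 → ℂ | ∀ i, ‖(fun a => y (i, a))‖ = 1} =
      ⋂ i, {y | ‖(fun a => y (i, a))‖ = 1} := by
      ext y; simp
    rw [this]
    refine isClosed_iInter fun i => ?_
    apply isClosed_eq
    · fun_prop
    · exact continuous_const
  · rw [isBounded_iff_forall_norm_le]
    refine ⟨1, fun y hy => ?_⟩
    rw [pi_norm_le_iff_of_nonneg zero_le_one]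
    rintro ⟨i, a⟩
    rw [← hy i]
    exact norm_le_pi_norm (fun a => y (i, a)) a

/-- limits of forms of configurations in a closed set -/
theorem InC_lim {C' : Set (Conf 1 d)} (hC : IsClosed C') (m : ℕ → Fin d → ℂ[X])
    (m' : Fin d → ℂ[X]) (hm : ∀ n, InC C' (m n))
    (hlim : ∀ k r, Tendsto (fun n => (m n k).coeff r) atTop (𝓝 ((m' k).coeff r)))
    (hne : ∀ k, m' k ≠ 0) : InC C' m' := by
  obtain ⟨S, hS⟩ := (conf_isClosed_iff C').mp hC
  have h1 : ∀ n, ∃ y : Coord 1 d, toConf y ∈ C' ∧ (∀ i, ‖vec y.1 i‖ = 1) ∧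
      ∀ k, ∃ c : ℂ, m n k = C c * Fy y.1 k := by
    intro n
    obtain ⟨X, hX, h⟩ := hm n
    obtain ⟨y, hy, hyn⟩ := exists_coord X
    refine ⟨y, hy ▸ hX, hyn, fun k => ?_⟩
    obtain ⟨c, hc, h2⟩ := h k
    obtain ⟨c', hc', h3⟩ := Fy_eq y k
    rw [hy] at h3
    refine ⟨c * c'⁻¹, ?_⟩
    rw [h3, h2, ← mul_assoc, ← C_mul, mul_assoc, inv_mul_cancel₀ hc', mul_one]
  choose y hyC hyn c hc using h1
  obtain ⟨y', hy', φ, hφ, hφlim⟩ := (isCompact_K (d := d)).tendsto_subseq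
    (x := fun n => fun i => (y n).1 i) (fun n => hyn n)
  have hne' : ∀ i, (fun a => y' (i, a)) ≠ (0 : V 1) := by
    intro i h0
    have := hy' i
    rw [h0, norm_zero] at this
    exact zero_ne_one this
  let Y : Coord 1 d := ⟨y', hne'⟩
  have hYC : toConf Y ∈ C' := by
    rw [hS]
    intro f hf
    have h2 : Tendsto (fun n => MvPolynomial.eval (fun i => (y (φ n)).1 i) f) atTop
        (𝓝 (MvPolynomial.eval y' f)) :=
      ((MvPolynomial.continuous_eval f).tendsto y').comp hφlim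
    have h3 : ∀ n, MvPolynomial.eval (fun i => (y (φ n)).1 i) f = 0 := by
      intro n
      exact (hS (y (φ n))).mp (hyC _) f hf
    simp only [h3] at h2
    exact (tendsto_nhds_unique h2 tendsto_const_nhds)
  refine ⟨toConf Y, hYC, fun k => ?_⟩
  obtain ⟨c1, hc1, h4⟩ := Fy_eq Y k
  have hFne : Fy y' k ≠ 0 := by
    rw [show Fy y' k = Fy Y.1 k from rfl, h4]
    exact mul_ne_zero (C_ne_zero.mpr hc1) (Fm_ne_zero _)
  obtain ⟨r0, hr0⟩ : ∃ r0, (Fy y' k).coeff r0 ≠ 0 := by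
    by_contra h
    push Not at h
    apply hFne
    ext r
    rw [h r, coeff_zero]
  have hFlim : ∀ r, Tendsto (fun n => (Fy (y (φ n)).1 k).coeff r) atTop (𝓝 ((Fy y' k).coeff r)) := by
    intro r
    exact ((continuous_coeff_Fy k r).tendsto y').comp hφlim
  have hmlim : ∀ r, Tendsto (fun n => (m (φ n) k).coeff r) atTop (𝓝 ((m' k).coeff r)) :=
    fun r => (hlim k r).comp hφ.tendsto_atTop
  set s := (m' k).coeff r0 / (Fy y' k).coeff r0 with hs
  have hclim : Tendsto (fun n => c (φ n) k) atTop (𝓝 s) := by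
    have h5 : Tendsto (fun n => (m (φ n) k).coeff r0 / (Fy (y (φ n)).1 k).coeff r0) atTop (𝓝 s) :=
      (hmlim r0).div (hFlim r0) hr0
    refine h5.congr' ?_
    have h6 := (hFlim r0).eventually_ne hr0
    filter_upwards [h6] with n hn
    rw [hc (φ n) k, coeff_C_mul, mul_div_assoc, div_self hn, mul_one]
  have hfin : m' k = C s * Fy y' k := by
    ext r
    rw [coeff_C_mul]
    have h7 : Tendsto (fun n => (m (φ n) k).coeff r) atTop (𝓝 (s * (Fy y' k).coeff r)) := by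
      refine (hclim.mul (hFlim r)).congr fun n => ?_
      rw [hc (φ n) k, coeff_C_mul]
    exact tendsto_nhds_unique (hmlim r) h7
  have hs0 : s ≠ 0 := by
    intro h0
    apply hne k
    rw [hfin, h0, C_0, zero_mul]
  refine ⟨s * c1, mul_ne_zero hs0 hc1, ?_⟩
  rw [hfin, show Fy y' k = Fy Y.1 k from rfl, h4, C_mul, mul_assoc]

end Pool.Agent.H875.EC1
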