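import Mathlib
import Pool.Agent.H875.EC1.Lim

/-!
The equations of the eigencompatibility variety of binary tensors.
-/

namespace Pool.Agent.H875.EC1

open Polynomial Filter Topology
open scoped LinearAlgebra.Projectivization
open Pool.Agent.Helper834.EC

variable {d : ℕ}

/-- the equations, for a tuple of binary forms -/
def Eqs (m : Fin d → ℂ[X]) : Prop :=
  (∀ k l, (m k).coeff 0 * (m l).coeff d = (m l).coeff 0 * (m k).coeff d) ∧
  (Even d → ∑ k, (m k).coeff (d / 2) * ∏ l ∈ Finset.univ.erase k, (m l).coeff 0 = 0 ∧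
    ∑ k, (m k).coeff (d / 2) * ∏ l ∈ Finset.univ.erase k, (m l).coeff d = 0)

theorem sum_scale (c : Fin d → ℂ) (m : Fin d → ℂ[X]) (r s : ℕ) :
    ∑ k, (C (c k) * m k).coeff r * ∏ l ∈ Finset.univ.erase k, (C (c l) * m l).coeff s =
      (∏ k, c k) * ∑ k, (m k).coeff r * ∏ l ∈ Finset.univ.erase k, (m l).coeff s := by
  rw [Finset.mul_sum]
  refine Finset.sum_congr rfl fun k _ => ?_
  simp only [coeff_C_mul]
  rw [Finset.prod_mul_distrib, ← Finset.mul_prod_erase _ c (Finset.mem_univ k)]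
  ring

theorem Eqs_scale (c : Fin d → ℂ) (hc : ∀ k, c k ≠ 0) (m : Fin d → ℂ[X]) :
    Eqs (fun k => C (c k) * m k) ↔ Eqs m := by
  unfold Eqs
  simp only
  rw [sum_scale, sum_scale]
  have hp : (∏ k, c k) ≠ 0 := Finset.prod_ne_zero_iff.mpr fun k _ => hc k
  simp only [mul_eq_zero, hp, false_or]
  refine and_congr ?_ Iff.rfl
  constructor
  · intro h k l
    have := h k l
    simp only [coeff_C_mul] at this
    have h2 : (c k * c l) * ((m k).coeff 0 * (m l).coeff d - (m l).coeff 0 * (m k).coeff d) = 0 := by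
      linear_combination this
    rcases mul_eq_zero.mp h2 with h2 | h2
    · exact absurd h2 (mul_ne_zero (hc k) (hc l))
    · exact sub_eq_zero.mp h2
  · intro h k l
    simp only [coeff_C_mul]
    linear_combination (c k * c l) * h k l

theorem Eqs_MM (hd : 3 ≤ d) (T : Tensor 1 d) : Eqs (MM T) := by
  have h0 : ∀ k l, (MM T k).coeff 0 = (MM T l).coeff 0 := by
    intro k l; rw [coeff_zero_MM, coeff_zero_MM]
  have h1 : ∀ k l, (MM T k).coeff d = (MM T l).coeff d := by
    intro k l; rw [coeff_top_MM, coeff_top_MM]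
  have k0 : Fin d := ⟨0, by omega⟩
  refine ⟨fun k l => by rw [h0 k l, h1 k l], fun he => ⟨?_, ?_⟩⟩
  · have h2 : ∀ k, (MM T k).coeff (d / 2) * ∏ l ∈ Finset.univ.erase k, (MM T l).coeff 0 =
        (MM T k).coeff (d / 2) * (MM T k0).coeff 0 ^ (d - 1) := by
      intro k
      rw [Finset.prod_congr rfl (fun l _ => h0 l k0), Finset.prod_const,
        Finset.card_erase_of_mem (Finset.mem_univ k), Finset.card_univ, Fintype.card_fin]
    rw [Finset.sum_congr rfl (fun k _ => h2 k), ← Finset.sum_mul, coeff_half_sum_MM hd he, zero_mul]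
  · have h2 : ∀ k, (MM T k).coeff (d / 2) * ∏ l ∈ Finset.univ.erase k, (MM T l).coeff d =
        (MM T k).coeff (d / 2) * (MM T k0).coeff d ^ (d - 1) := by
      intro k
      rw [Finset.prod_congr rfl (fun l _ => h1 l k0), Finset.prod_const,
        Finset.card_erase_of_mem (Finset.mem_univ k), Finset.card_univ, Fintype.card_fin]
    rw [Finset.sum_congr rfl (fun k _ => h2 k), ← Finset.sum_mul, coeff_half_sum_MM hd he, zero_mul]

theorem isEigenpoint_iff' (T : Tensor 1 d) (k : Fin d) (p : ℙ ℂ (V 1)) :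
    IsEigenpoint T k p ↔ hev d (MM T k) (uu p.rep) (vv p.rep) = 0 := by
  rw [← isEig_iff]
  conv_lhs => rw [← p.mk_rep]
  exact isEigenpoint_mk_iff T k p.rep p.rep_nonzero

theorem infinite_proj : Set.Infinite (Set.univ : Set (ℙ ℂ (V 1))) := by
  rw [Set.infinite_univ_iff]
  have hne : ∀ t : ℂ, (![1, t] : V 1) ≠ 0 := by
    intro t h
    have := congrFun h 0
    simp at this
  refine Infinite.of_injective (fun t : ℂ => Projectivization.mk ℂ (![1, t] : V 1) (hne t)) ?_
  intro s t h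
  simp only at h
  rw [Projectivization.mk_eq_mk_iff'] at h
  obtain ⟨a, ha⟩ := h
  have h0 := congrFun ha 0
  have h1 := congrFun ha 1
  simp at h0 h1
  rw [h0] at h1
  simpa using h1.symm

theorem eigenConfs_sub (hd : 3 ≤ d) (X : Conf 1 d) (hX : X ∈ eigenConfs 1 d) :
    Eqs (fun k => Fm (pts X k)) := by
  obtain ⟨T, hT⟩ := hX
  have h1 : ∀ k, ∃ q : ℂ, q ≠ 0 ∧ MM T k = C q * Fm (pts X k) := by
    intro k
    obtain ⟨hnd, hp⟩ := hT k
    have hc : Multiset.card (pts X k) = d := (card_pts X k).trans (D_one hd)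
    obtain ⟨Q, hQ, hMQ⟩ := exists_mul_Fm (pts X k) hnd 0 (MM T k)
      (by rw [hc, zero_add]; exact natDegree_MM T k) (by
        intro p hpm
        rw [hc, zero_add, ← isEigenpoint_iff']
        exact (hp p).mp hpm)
    refine ⟨Q.coeff 0, ?_, ?_⟩
    · intro h0
      have hQ0 : Q = 0 := by rw [eq_C_of_natDegree_le_zero hQ, h0, C_0]
      have hM0 : MM T k = 0 := by rw [hMQ, hQ0, mul_zero]
      have hall : ∀ p, p ∈ pts X k := by
        intro p
        apply (hp p).mpr
        rw [isEigenpoint_iff', hM0]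
        simp [hev]
      classical
      have hfin : (Set.univ : Set (ℙ ℂ (V 1))).Finite := by
        refine (Finset.finite_toSet (pts X k).toFinset).subset ?_
        intro p _
        simp [hall p]
      exact infinite_proj hfin
    · conv_lhs => rw [hMQ, eq_C_of_natDegree_le_zero hQ]
      rw [mul_comm]
  choose q hq hMq using h1
  rw [← Eqs_scale q hq]
  have : (fun k => C (q k) * Fm (pts X k)) = MM T := by
    funext k; exact (hMq k).symm
  rw [this]
  exact Eqs_MM hd T

/-- generic form of a group of points -/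
noncomputable def Fgen (k : Fin d) : Polynomial (MvPolynomial ((Fin d × Fin (D 1 d)) × Fin 2) ℂ) :=
  ∏ j : Fin (D 1 d),
    (C (MvPolynomial.X ((k, j), 1) + MvPolynomial.C Complex.I * MvPolynomial.X ((k, j), 0)) * X +
     C (MvPolynomial.X ((k, j), 1) - MvPolynomial.C Complex.I * MvPolynomial.X ((k, j), 0)))

theorem eval_coeff_Fgen (y : Aff ((Fin d × Fin (D 1 d)) × Fin 2)) (k : Fin d) (r : ℕ) :
    MvPolynomial.eval (fun i => y i) ((Fgen k).coeff r) = (Fy y k).coeff r := by
  rw [← coeff_map]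
  congr 1
  unfold Fgen Fy
  rw [Polynomial.map_prod]
  refine Finset.prod_congr rfl fun j _ => ?_
  unfold lf al be vec
  simp

theorem eval_sum_Fgen (y : Aff ((Fin d × Fin (D 1 d)) × Fin 2)) (r s : ℕ) :
    MvPolynomial.eval (fun i => y i)
      (∑ k, (Fgen k).coeff r * ∏ l ∈ Finset.univ.erase k, (Fgen l).coeff s) =
      ∑ k, (Fy y k).coeff r * ∏ l ∈ Finset.univ.erase k, (Fy y l).coeff s := by
  rw [map_sum]
  refine Finset.sum_congr rfl fun k _ => ?_
  rw [map_mul, map_prod, eval_coeff_Fgen]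
  congr 1
  exact Finset.prod_congr rfl fun l _ => eval_coeff_Fgen y l s

theorem isClosed_Eqs : IsClosed {X : Conf 1 d | Eqs (fun k => Fm (pts X k))} := by
  rw [conf_isClosed_iff]
  refine ⟨{f | (∃ k l, f = (Fgen k).coeff 0 * (Fgen l).coeff d - (Fgen l).coeff 0 * (Fgen k).coeff d) ∨
    (Even d ∧ (f = ∑ k, (Fgen k).coeff (d / 2) * ∏ l ∈ Finset.univ.erase k, (Fgen l).coeff 0 ∨
      f = ∑ k, (Fgen k).coeff (d / 2) * ∏ l ∈ Finset.univ.erase k, (Fgen l).coeff d))}, fun y => ?_⟩
  have h1 := fun k => Fy_eq y k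
  choose c hc hcF using h1
  have h2 : toConf y ∈ {X : Conf 1 d | Eqs (fun k => Fm (pts X k))} ↔ Eqs (fun k => Fy y.1 k) := by
    show Eqs (fun k => Fm (pts (toConf y) k)) ↔ _
    rw [← Eqs_scale c hc]
    simp only [hcF]
  rw [h2]
  unfold Eqs
  constructor
  · rintro ⟨e1, e2⟩ f (⟨k, l, rfl⟩ | ⟨he, rfl | rfl⟩)
    · rw [map_sub, map_mul, map_mul, eval_coeff_Fgen, eval_coeff_Fgen, eval_coeff_Fgen,
        eval_coeff_Fgen, e1 k l, sub_self]
    · rw [eval_sum_Fgen]
      exact (e2 he).1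
    · rw [eval_sum_Fgen]
      exact (e2 he).2
  · intro h
    refine ⟨fun k l => ?_, fun he => ⟨?_, ?_⟩⟩
    · have := h _ (Or.inl ⟨k, l, rfl⟩)
      rw [map_sub, map_mul, map_mul, eval_coeff_Fgen, eval_coeff_Fgen, eval_coeff_Fgen,
        eval_coeff_Fgen] at this
      exact sub_eq_zero.mp this
    · have := h _ (Or.inr ⟨he, Or.inl rfl⟩)
      rwa [eval_sum_Fgen] at this
    · have := h _ (Or.inr ⟨he, Or.inr rfl⟩)
      rwa [eval_sum_Fgen] at this

/-- limits along a punctured neighbourhood of zero -/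
theorem InC_of_eventually {C' : Set (Conf 1 d)} (hC : IsClosed C') (M : ℂ → Fin d → ℂ[X])
    (m' : Fin d → ℂ[X]) (hm : ∀ᶠ ε in 𝓝[≠] (0 : ℂ), InC C' (M ε))
    (hlim : ∀ k r, Tendsto (fun ε => (M ε k).coeff r) (𝓝[≠] (0 : ℂ)) (𝓝 ((m' k).coeff r)))
    (hne : ∀ k, m' k ≠ 0) : InC C' m' := by
  obtain ⟨x, hx⟩ := exists_seq_tendsto (𝓝[≠] (0 : ℂ))
  obtain ⟨N, hN⟩ := (eventually_atTop.mp (hx.eventually hm))
  refine InC_lim hC (fun n => M (x (n + N))) m' (fun n => hN _ (by omega)) ?_ hne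
  intro k r
  exact ((hlim k r).comp hx).comp (tendsto_add_atTop_nat N)

/-- tuples of forms with distinct roots -/
theorem InC_base (hd : 3 ≤ d) (m : Fin d → ℂ[X]) (hdeg : ∀ k, (m k).natDegree ≤ d)
    (μ : Fin d → ℂ) (hμ : ∀ k, μ k ≠ 0)
    (h0 : ∀ k l, μ k * (m k).coeff 0 = μ l * (m l).coeff 0)
    (h1 : ∀ k l, μ k * (m k).coeff d = μ l * (m l).coeff d)
    (h2 : Even d → ∑ k, μ k * (m k).coeff (d / 2) = 0)
    (hnd : ∀ k, ∃ S : Multiset (ℙ ℂ (V 1)), S.Nodup ∧ Multiset.card S = d ∧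
      ∃ c : ℂ, c ≠ 0 ∧ m k = C c * Fm S) : InC (eigenConfs 1 d) m := by
  choose S hS1 hS2 c hc hmc using hnd
  obtain ⟨T, hT⟩ := exists_tensor hd (fun k => C (μ k) * m k)
    (fun k => (natDegree_C_mul_le _ _).trans (hdeg k))
    (fun k l => by simpa only [coeff_C_mul] using h0 k l)
    (fun k l => by simpa only [coeff_C_mul] using h1 k l)
    (fun he => by simpa only [coeff_C_mul] using h2 he)
  let X : Conf 1 d := fun k => ⟨S k, (hS2 k).trans (D_one hd).symm⟩
  have hpts : ∀ k, pts X k = S k := fun k => rfl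
  refine ⟨X, ⟨T, fun k => ⟨hS1 k, fun p => ?_⟩⟩, fun k => ⟨c k, hc k, hmc k⟩⟩
  rw [isEigenpoint_iff', hT k, hmc k, ← mul_assoc, ← C_mul, hev_smul]
  have h3 : p ∈ S k ↔ hev d (Fm (S k)) (uu p.rep) (vv p.rep) = 0 := by
    have := hev_Fm_eq_zero_iff (S k) p.rep_nonzero
    rw [hS2 k, p.mk_rep] at this
    exact this.symm
  have h4 : μ k * c k ≠ 0 := mul_ne_zero (hμ k) (hc k)
  show p ∈ S k ↔ _
  rw [h3]
  simp [h4]

/-- a form with two equal factors has a common zero with its derivative -/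
theorem exists_double (P : ℂ[X]) (hPd : P.coeff d ≠ 0) (S : Multiset (ℙ ℂ (V 1)))
    (hcard : Multiset.card S = d) {c : ℂ} (hP : P = C c * Fm S) (hS : ¬ S.Nodup) :
    ∃ z : ℂ, P.eval z = 0 ∧ (derivative P).eval z = 0 := by
  rw [Multiset.nodup_iff_le] at hS
  push Not at hS
  obtain ⟨p, hp⟩ := hS
  obtain ⟨S', rfl⟩ := Multiset.le_iff_exists_add.mp hp
  have h1 : Fm ((p ::ₘ p ::ₘ 0) + S') = lf p.rep * (lf p.rep * Fm S') := by
    rw [Multiset.cons_add, Multiset.cons_add, zero_add, Fm_cons, Fm_cons]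
  have hbe : be p.rep ≠ 0 := by
    intro h0
    apply hPd
    have h2 : lf p.rep = C (al p.rep) := by unfold lf; rw [h0]; simp
    have hcard' : Multiset.card S' + 2 = d := by
      rw [← hcard, Multiset.card_add]
      simp [add_comm]
    rw [hP, h1, h2, coeff_C_mul, coeff_C_mul, coeff_C_mul,
      coeff_eq_zero_of_natDegree_lt (lt_of_le_of_lt (natDegree_Fm S') (by omega))]
    simp
  refine ⟨-(al p.rep) / be p.rep, ?_⟩
  have h3 : (lf p.rep).eval (-(al p.rep) / be p.rep) = 0 := by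
    unfold lf
    simp only [eval_add, eval_mul, eval_C, eval_X]
    field_simp
    ring
  have h3' : P = C c * (lf p.rep * (lf p.rep * Fm S')) := by rw [hP]; exact congrArg _ h1
  constructor
  · rw [h3', eval_mul, eval_mul, h3]; ring
  · rw [h3']
    simp only [derivative_mul, derivative_C, eval_add, eval_mul, h3]
    simp

/-- removal of the condition on distinct roots -/
theorem InC_step1 (hd : 3 ≤ d) (m : Fin d → ℂ[X]) (hdeg : ∀ k, (m k).natDegree ≤ d)
    (α β : ℂ) (hα : α ≠ 0) (hβ : β ≠ 0) (t : Fin d → ℂ) (ht : ∀ k, t k ≠ 0)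
    (h0 : ∀ k, (m k).coeff 0 = α * t k) (h1 : ∀ k, (m k).coeff d = β * t k)
    (h2 : Even d → ∑ k, (m k).coeff (d / 2) / t k = 0) :
    InC (eigencompatibilityVariety 1 d) m := by
  have hne : ∀ k, m k ≠ 0 := by
    intro k h
    have := h0 k
    rw [h, coeff_zero] at this
    exact (mul_ne_zero hα (ht k)) this.symm
  refine InC_of_eventually isClosed_closure (fun ε k => m k + C ε * X) m ?_ ?_ hne
  · -- finitely many bad values
    have hbad : ∀ k, ∀ᶠ ε in 𝓝[≠] (0 : ℂ), ∀ z : ℂ,
        ¬ ((m k + C ε * X).eval z = 0 ∧ (derivative (m k + C ε * X)).eval z = 0) := by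
      intro k
      set W : ℂ[X] := X * derivative (m k) - m k with hW
      have hW0 : W ≠ 0 := by
        intro h
        have : W.coeff 0 = 0 := by rw [h, coeff_zero]
        rw [hW, coeff_sub, mul_coeff_zero, coeff_X_zero, zero_mul, zero_sub, neg_eq_zero, h0 k] at this
        exact (mul_ne_zero hα (ht k)) this
      have hfin : ((fun z => -(derivative (m k)).eval z) '' (W.rootSet ℂ)).Finite :=
        (W.rootSet_finite ℂ).image _
      have h3 : ∀ᶠ ε in 𝓝[≠] (0 : ℂ), ε ∉ (fun z => -(derivative (m k)).eval z) '' (W.rootSet ℂ) := by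
        have h4 : (((fun z => -(derivative (m k)).eval z) '' (W.rootSet ℂ)) \ {0})ᶜ ∈ 𝓝 (0 : ℂ) :=
          (hfin.subset Set.sdiff_subset).isClosed.isOpen_compl.mem_nhds (by simp)
        filter_upwards [nhdsWithin_le_nhds h4, self_mem_nhdsWithin] with ε hε hε0 h5
        exact hε ⟨h5, hε0⟩
      filter_upwards [h3] with ε hε z hz
      apply hε
      refine ⟨z, ?_, ?_⟩
      · rw [mem_rootSet]
        refine ⟨hW0, ?_⟩
        rw [coe_aeval_eq_eval, hW]
        have e1 := hz.1
        have e2 := hz.2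
        simp only [derivative_add, derivative_mul, derivative_C, derivative_X, zero_mul, zero_add,
          mul_one, eval_add, eval_mul, eval_C, eval_X, eval_sub] at e1 e2 ⊢
        linear_combination z * e2 - e1
      · have e2 := hz.2
        simp only [derivative_add, derivative_mul, derivative_C, derivative_X, zero_mul, zero_add,
          mul_one, eval_add, eval_C] at e2
        linear_combination -e2
    filter_upwards [eventually_all.mpr hbad] with ε hε
    have hco : ∀ k r, r ≠ 1 → (m k + C ε * X).coeff r = (m k).coeff r := by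
      intro k r hr
      rw [coeff_add, coeff_C_mul, coeff_X, if_neg (Ne.symm hr), mul_zero, add_zero]
    have hdeg' : ∀ k, (m k + C ε * X).natDegree ≤ d := by
      intro k
      refine (natDegree_add_le _ _).trans (max_le (hdeg k) ?_)
      refine (natDegree_C_mul_le _ _).trans ?_
      rw [natDegree_X]; omega
    obtain ⟨X', hX', h'⟩ : InC (eigenConfs 1 d) (fun k => m k + C ε * X) := by
      refine InC_base hd _ hdeg' (fun k => (t k)⁻¹) (fun k => inv_ne_zero (ht k)) ?_ ?_ ?_ ?_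
      · intro k l
        rw [hco k 0 (by omega), hco l 0 (by omega), h0, h0]
        have e1 := ht k
        have e2 := ht l
        field_simp
      · intro k l
        rw [hco k d (by omega), hco l d (by omega), h1, h1]
        have e1 := ht k
        have e2 := ht l
        field_simp
      · intro he
        have hd2 : d / 2 ≠ 1 := by
          obtain ⟨r, hr⟩ := he
          omega
        have := h2 he
        rw [← this]
        refine Finset.sum_congr rfl fun k _ => ?_
        rw [hco k _ hd2, div_eq_mul_inv, mul_comm]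
      · intro k
        have hne' : m k + C ε * X ≠ 0 := by
          intro h
          have h5 := hco k 0 (by omega)
          rw [h, coeff_zero, h0 k] at h5
          exact (mul_ne_zero hα (ht k)) h5.symm
        obtain ⟨S, hS, c, hc, hPS⟩ := exists_Fm d _ hne' (hdeg' k)
        refine ⟨S, ?_, hS, c, hc, hPS⟩
        by_contra hnd
        obtain ⟨z, hz⟩ := exists_double (d := d) (m k + C ε * X) (by
          rw [hco k d (by omega), h1 k]
          exact mul_ne_zero hβ (ht k)) S hS hPS hnd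
        exact hε k z hz
    exact ⟨X', subset_closure hX', h'⟩
  · intro k r
    have h3 : Tendsto (fun ε : ℂ => (m k).coeff r + ε * (X : ℂ[X]).coeff r) (𝓝[≠] (0 : ℂ))
        (𝓝 ((m k).coeff r + 0 * (X : ℂ[X]).coeff r)) := by
      refine Tendsto.mono_left ?_ nhdsWithin_le_nhds
      exact tendsto_const_nhds.add (tendsto_id.mul tendsto_const_nhds)
    rw [zero_mul, add_zero] at h3
    refine h3.congr fun ε => ?_
    rw [coeff_add, coeff_C_mul]

/-- perturbation of three coefficients -/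
noncomputable def pert (m : Fin d → ℂ[X]) (a b c : Fin d → ℂ) (k : Fin d) : ℂ[X] :=
  m k + C (a k) + C (b k) * X ^ d + C (c k) * X ^ (d / 2)

theorem coeff_pert (m : Fin d → ℂ[X]) (a b c : Fin d → ℂ) (k : Fin d) (r : ℕ) :
    (pert m a b c k).coeff r = (m k).coeff r + (if r = 0 then a k else 0) +
      b k * (if r = d then 1 else 0) + c k * (if r = d / 2 then 1 else 0) := by
  unfold pert
  rw [coeff_add, coeff_add, coeff_add, coeff_C_mul, coeff_C_mul, coeff_X_pow, coeff_X_pow, coeff_C]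

theorem coeff_pert_zero (hd : 3 ≤ d) (m : Fin d → ℂ[X]) (a b c : Fin d → ℂ) (k : Fin d) :
    (pert m a b c k).coeff 0 = (m k).coeff 0 + a k := by
  rw [coeff_pert, if_pos rfl, if_neg (by omega), if_neg (by omega)]; ring

theorem coeff_pert_top (hd : 3 ≤ d) (m : Fin d → ℂ[X]) (a b c : Fin d → ℂ) (k : Fin d) :
    (pert m a b c k).coeff d = (m k).coeff d + b k := by
  rw [coeff_pert, if_neg (by omega), if_pos rfl, if_neg (by omega)]; ring

theorem coeff_pert_half (hd : 3 ≤ d) (m : Fin d → ℂ[X]) (a b c : Fin d → ℂ) (k : Fin d) :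
    (pert m a b c k).coeff (d / 2) = (m k).coeff (d / 2) + c k := by
  rw [coeff_pert, if_neg (by omega), if_neg (by omega), if_pos rfl]; ring

theorem natDegree_pert (m : Fin d → ℂ[X]) (hdeg : ∀ k, (m k).natDegree ≤ d) (a b c : Fin d → ℂ)
    (k : Fin d) : (pert m a b c k).natDegree ≤ d := by
  unfold pert
  refine (natDegree_add_le _ _).trans (max_le ((natDegree_add_le _ _).trans (max_le
    ((natDegree_add_le _ _).trans (max_le (hdeg k) ?_)) ?_)) ?_)
  · simp
  · exact natDegree_C_mul_X_pow_le _ _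
  · exact (natDegree_C_mul_X_pow_le _ _).trans (Nat.div_le_self _ _)

theorem InC_pert {C' : Set (Conf 1 d)} (hC : IsClosed C') (m : Fin d → ℂ[X]) (hne : ∀ k, m k ≠ 0)
    (a b c : ℂ → Fin d → ℂ) (ha : ∀ k, Tendsto (fun ε => a ε k) (𝓝[≠] (0 : ℂ)) (𝓝 0))
    (hb : ∀ k, Tendsto (fun ε => b ε k) (𝓝[≠] (0 : ℂ)) (𝓝 0))
    (hc : ∀ k, Tendsto (fun ε => c ε k) (𝓝[≠] (0 : ℂ)) (𝓝 0))
    (h : ∀ᶠ ε in 𝓝[≠] (0 : ℂ), InC C' (pert m (a ε) (b ε) (c ε))) : InC C' m := by
  refine InC_of_eventually hC (fun ε => pert m (a ε) (b ε) (c ε)) m h ?_ hne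
  intro k r
  have h1 : Tendsto (fun ε => (m k).coeff r + (if r = 0 then a ε k else 0) +
      b ε k * (if r = d then 1 else 0) + c ε k * (if r = d / 2 then 1 else 0)) (𝓝[≠] (0 : ℂ))
      (𝓝 ((m k).coeff r + 0 + 0 * (if r = d then 1 else 0) + 0 * (if r = d / 2 then 1 else 0))) := by
    refine ((tendsto_const_nhds.add ?_).add ((hb k).mul tendsto_const_nhds)).add
      ((hc k).mul tendsto_const_nhds)
    split_ifs
    · exact ha k
    · exact tendsto_const_nhds
  rw [zero_mul, zero_mul, add_zero, add_zero, add_zero] at h1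
  refine h1.congr fun ε => ?_
  rw [coeff_pert]

theorem eventually_ne_zero_of_ne (x : ℂ) : ∀ᶠ ε in 𝓝[≠] (0 : ℂ), x + ε ≠ 0 := by
  by_cases hx : x = 0
  · filter_upwards [self_mem_nhdsWithin] with ε hε
    rw [hx, zero_add]; exact hε
  · have h : Tendsto (fun ε : ℂ => x + ε) (𝓝[≠] (0 : ℂ)) (𝓝 (x + 0)) :=
      (tendsto_const_nhds.add tendsto_id).mono_left nhdsWithin_le_nhds
    exact h.eventually_ne (by simpa using hx)

theorem tendsto_eps : Tendsto (fun ε : ℂ => ε) (𝓝[≠] (0 : ℂ)) (𝓝 0) :=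
  tendsto_id.mono_left nhdsWithin_le_nhds

/-- arbitrary common ratio -/
theorem InC_step2 (hd : 3 ≤ d) (m : Fin d → ℂ[X]) (hdeg : ∀ k, (m k).natDegree ≤ d)
    (α β : ℂ) (hαβ : α ≠ 0 ∨ β ≠ 0) (t : Fin d → ℂ) (ht : ∀ k, t k ≠ 0)
    (h0 : ∀ k, (m k).coeff 0 = α * t k) (h1 : ∀ k, (m k).coeff d = β * t k)
    (h2 : Even d → ∑ k, (m k).coeff (d / 2) / t k = 0) :
    InC (eigencompatibilityVariety 1 d) m := by
  have hne : ∀ k, m k ≠ 0 := by
    intro k h
    have e0 := h0 k
    have e1 := h1 k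
    rw [h, coeff_zero] at e0 e1
    rcases hαβ with h | h
    · exact (mul_ne_zero h (ht k)) e0.symm
    · exact (mul_ne_zero h (ht k)) e1.symm
  have hz : ∀ k, Tendsto (fun ε : ℂ => ε * t k) (𝓝[≠] (0 : ℂ)) (𝓝 0) := by
    intro k
    have := tendsto_eps.mul_const (t k)
    rwa [zero_mul] at this
  refine InC_pert isClosed_closure m hne (fun ε k => ε * t k) (fun ε k => ε * t k)
    (fun _ _ => 0) hz hz (fun k => tendsto_const_nhds) ?_
  filter_upwards [eventually_ne_zero_of_ne α, eventually_ne_zero_of_ne β] with ε hε1 hε2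
  refine InC_step1 hd _ (natDegree_pert m hdeg _ _ _) (α + ε) (β + ε) hε1 hε2 t ht ?_ ?_ ?_
  · intro k
    rw [coeff_pert_zero hd, h0]; ring
  · intro k
    rw [coeff_pert_top hd, h1]; ring
  · intro he
    have h3 := h2 he
    refine Eq.trans (Finset.sum_congr rfl fun k _ => ?_) h3
    rw [coeff_pert_half hd, add_zero]

end Pool.Agent.H875.EC1
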