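import Mathlib
import Pool.Agent.H875.EC1.Main
import Pool.Agent.H875.EC1.Defs

/-!
The equations of the eigencompatibility variety of binary tensors: final steps.
-/

namespace Pool.Agent.H875.EC1

open Polynomial Filter Topology
open scoped LinearAlgebra.Projectivization
open Pool.Agent.Helper834.EC

variable {d : ℕ}

/-- moving the scalars `t` and the middle coefficients -/
theorem InC_move (hd : 3 ≤ d) (m : Fin d → ℂ[X]) (hdeg : ∀ k, (m k).natDegree ≤ d)
    (hne : ∀ k, m k ≠ 0)
    (α β : ℂ) (hαβ : α ≠ 0 ∨ β ≠ 0) (t : Fin d → ℂ)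
    (h0 : ∀ k, (m k).coeff 0 = α * t k) (h1 : ∀ k, (m k).coeff d = β * t k)
    (t' c' : ℂ → Fin d → ℂ)
    (ht' : ∀ k, Tendsto (fun ε => t' ε k) (𝓝[≠] (0 : ℂ)) (𝓝 (t k)))
    (hc' : ∀ k, Tendsto (fun ε => c' ε k) (𝓝[≠] (0 : ℂ)) (𝓝 0))
    (h : ∀ᶠ ε in 𝓝[≠] (0 : ℂ), (∀ k, t' ε k ≠ 0) ∧
      (Even d → ∑ k, ((m k).coeff (d / 2) + c' ε k) / t' ε k = 0)) :
    InC (eigencompatibilityVariety 1 d) m := by
  have hz : ∀ (γ : ℂ) k, Tendsto (fun ε : ℂ => γ * (t' ε k - t k)) (𝓝[≠] (0 : ℂ)) (𝓝 0) := by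
    intro γ k
    have := ((ht' k).sub_const (t k)).const_mul γ
    rwa [sub_self, mul_zero] at this
  refine InC_pert isClosed_closure m hne (fun ε k => α * (t' ε k - t k))
    (fun ε k => β * (t' ε k - t k)) c' (hz α) (hz β) hc' ?_
  filter_upwards [h] with ε hε
  refine InC_step2 hd _ (natDegree_pert m hdeg _ _ _) α β hαβ (t' ε) hε.1 ?_ ?_ ?_
  · intro k
    rw [coeff_pert_zero hd, h0]; ring
  · intro k
    rw [coeff_pert_top hd, h1]; ring
  · intro he
    refine Eq.trans (Finset.sum_congr rfl fun k _ => ?_) (hε.2 he)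
    rw [coeff_pert_half hd]

theorem sum_erase_eq (t : Fin d → ℂ) (ht : ∀ k, t k ≠ 0) (c : Fin d → ℂ) :
    ∑ k, c k * ∏ l ∈ Finset.univ.erase k, t l = (∏ k, t k) * ∑ k, c k / t k := by
  rw [Finset.mul_sum]
  refine Finset.sum_congr rfl fun k _ => ?_
  rw [← Finset.mul_prod_erase _ t (Finset.mem_univ k)]
  have := ht k
  field_simp

/-- case of a single vanishing scalar -/
theorem InC_one (hd : 3 ≤ d) (m : Fin d → ℂ[X]) (hdeg : ∀ k, (m k).natDegree ≤ d)
    (hne : ∀ k, m k ≠ 0)
    (α β : ℂ) (hαβ : α ≠ 0 ∨ β ≠ 0) (t : Fin d → ℂ)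
    (h0 : ∀ k, (m k).coeff 0 = α * t k) (h1 : ∀ k, (m k).coeff d = β * t k)
    (k0 : Fin d) (hk0 : t k0 = 0) (hk : ∀ k, k ≠ k0 → t k ≠ 0)
    (h2 : ∑ k, (m k).coeff (d / 2) * ∏ l ∈ Finset.univ.erase k, t l = 0) :
    InC (eigencompatibilityVariety 1 d) m := by
  classical
  have hc0 : (m k0).coeff (d / 2) = 0 := by
    rw [Finset.sum_eq_single k0] at h2
    · rcases mul_eq_zero.mp h2 with h | h
      · exact h
      · exfalso
        rw [Finset.prod_eq_zero_iff] at h
        obtain ⟨l, hl, hl0⟩ := h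
        exact hk l (Finset.mem_erase.mp hl).1 hl0
    · intro k _ hkk
      rw [Finset.prod_eq_zero (Finset.mem_erase.mpr ⟨Ne.symm hkk, Finset.mem_univ k0⟩) hk0, mul_zero]
    · intro h; exact absurd (Finset.mem_univ _) h
  set B := ∑ k ∈ Finset.univ.erase k0, (m k).coeff (d / 2) / t k with hB
  refine InC_move hd m hdeg hne α β hαβ t h0 h1 (fun ε k => if k = k0 then ε else t k)
    (fun ε k => if k = k0 then -ε * B else 0) ?_ ?_ ?_
  · intro k
    by_cases hkk : k = k0
    · simp only [if_pos hkk]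
      rw [hkk, hk0]; exact tendsto_eps
    · simp only [if_neg hkk]
      exact tendsto_const_nhds
  · intro k
    by_cases hkk : k = k0
    · simp only [if_pos hkk]
      have := (tendsto_eps.neg).mul_const B
      rwa [neg_zero, zero_mul] at this
    · simp only [if_neg hkk]
      exact tendsto_const_nhds
  · filter_upwards [self_mem_nhdsWithin] with ε hε
    have hε0 : ε ≠ 0 := hε
    refine ⟨fun k => ?_, fun _ => ?_⟩
    · by_cases hkk : k = k0
      · rw [if_pos hkk]; exact hε0
      · rw [if_neg hkk]; exact hk k hkk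
    · rw [← Finset.add_sum_erase _ _ (Finset.mem_univ k0)]
      have h3 : ∑ k ∈ Finset.univ.erase k0, ((m k).coeff (d / 2) +
          (if k = k0 then -ε * B else 0)) / (if k = k0 then ε else t k) = B := by
        rw [hB]
        refine Finset.sum_congr rfl fun k hkm => ?_
        have hkk := (Finset.mem_erase.mp hkm).1
        rw [if_neg hkk, if_neg hkk, add_zero]
      rw [h3, if_pos rfl, if_pos rfl, hc0]
      field_simp
      ring

/-- case of at least two vanishing scalars, generic middle coefficients -/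
theorem InC_two (hd : 3 ≤ d) (m : Fin d → ℂ[X]) (hdeg : ∀ k, (m k).natDegree ≤ d)
    (hne : ∀ k, m k ≠ 0)
    (α β : ℂ) (hαβ : α ≠ 0 ∨ β ≠ 0) (t : Fin d → ℂ)
    (h0 : ∀ k, (m k).coeff 0 = α * t k) (h1 : ∀ k, (m k).coeff d = β * t k)
    (k2 : Fin d) (hk2 : t k2 = 0) (hc2 : (m k2).coeff (d / 2) ≠ 0)
    (hA : ∑ k ∈ Finset.univ.erase k2, (if t k = 0 then (m k).coeff (d / 2) else 0) ≠ 0) :
    InC (eigencompatibilityVariety 1 d) m := by
  classical
  set A := ∑ k ∈ Finset.univ.erase k2, (if t k = 0 then (m k).coeff (d / 2) else 0) with hAdef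
  set B := ∑ k ∈ Finset.univ.erase k2, (if t k = 0 then 0 else (m k).coeff (d / 2) / t k) with hB
  set c2 := (m k2).coeff (d / 2) with hc2def
  have hAB : Tendsto (fun ε : ℂ => A + ε * B) (𝓝[≠] (0 : ℂ)) (𝓝 A) := by
    have := (tendsto_const_nhds (x := A)).add (tendsto_eps.mul_const B)
    rwa [zero_mul, add_zero] at this
  have hABne := hAB.eventually_ne hA
  refine InC_move hd m hdeg hne α β hαβ t h0 h1
    (fun ε k => if k = k2 then -(c2 * ε) / (A + ε * B) else if t k = 0 then ε else t k)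
    (fun _ _ => 0) ?_ (fun _ => tendsto_const_nhds) ?_
  · intro k
    by_cases hkk : k = k2
    · simp only [if_pos hkk]
      rw [hkk, hk2]
      have := ((tendsto_eps.const_mul c2).neg).div hAB hA
      rwa [mul_zero, neg_zero, zero_div] at this
    · simp only [if_neg hkk]
      by_cases htk : t k = 0
      · simp only [if_pos htk]
        rw [htk]; exact tendsto_eps
      · simp only [if_neg htk]
        exact tendsto_const_nhds
  · filter_upwards [self_mem_nhdsWithin, hABne] with ε hε hABε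
    have hε0 : ε ≠ 0 := hε
    refine ⟨fun k => ?_, fun _ => ?_⟩
    · by_cases hkk : k = k2
      · rw [if_pos hkk]
        exact div_ne_zero (neg_ne_zero.mpr (mul_ne_zero hc2 hε0)) hABε
      · rw [if_neg hkk]
        by_cases htk : t k = 0
        · rw [if_pos htk]; exact hε0
        · rw [if_neg htk]; exact htk
    · rw [← Finset.add_sum_erase _ _ (Finset.mem_univ k2)]
      have h3 : ∑ k ∈ Finset.univ.erase k2, ((m k).coeff (d / 2) + 0) /
          (if k = k2 then -(c2 * ε) / (A + ε * B) else if t k = 0 then ε else t k) =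
          A / ε + B := by
        rw [hAdef, hB, Finset.sum_div, ← Finset.sum_add_distrib]
        refine Finset.sum_congr rfl fun k hkm => ?_
        have hkk := (Finset.mem_erase.mp hkm).1
        rw [if_neg hkk, add_zero]
        by_cases htk : t k = 0
        · rw [if_pos htk, if_pos htk, if_pos htk, add_zero]
        · rw [if_neg htk, if_neg htk, if_neg htk, zero_div, zero_add]
      rw [h3, if_pos rfl, add_zero, ← hc2def]
      field_simp
      ring

/-- case of at least two vanishing scalars -/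
theorem InC_two' (hd : 3 ≤ d) (m : Fin d → ℂ[X]) (hdeg : ∀ k, (m k).natDegree ≤ d)
    (hne : ∀ k, m k ≠ 0)
    (α β : ℂ) (hαβ : α ≠ 0 ∨ β ≠ 0) (t : Fin d → ℂ)
    (h0 : ∀ k, (m k).coeff 0 = α * t k) (h1 : ∀ k, (m k).coeff d = β * t k)
    (k1 k2 : Fin d) (hk12 : k1 ≠ k2) (hk1 : t k1 = 0) (hk2 : t k2 = 0) :
    InC (eigencompatibilityVariety 1 d) m := by
  classical
  refine InC_pert isClosed_closure m hne (fun _ _ => 0) (fun _ _ => 0)
    (fun ε k => if k = k1 ∨ k = k2 then ε else 0) (fun _ => tendsto_const_nhds)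
    (fun _ => tendsto_const_nhds) ?_ ?_
  · intro k
    by_cases h : k = k1 ∨ k = k2
    · simp only [if_pos h]; exact tendsto_eps
    · simp only [if_neg h]; exact tendsto_const_nhds
  · set A := ∑ k ∈ Finset.univ.erase k2, (if t k = 0 then (m k).coeff (d / 2) else 0) with hAdef
    filter_upwards [eventually_all.mpr fun k => eventually_ne_zero_of_ne ((m k).coeff (d / 2)),
      eventually_ne_zero_of_ne A] with ε hε1 hε2
    have hne' : ∀ k, pert m (fun _ => 0) (fun _ => 0)
        (fun k => if k = k1 ∨ k = k2 then ε else 0) k ≠ 0 := by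
      intro k h
      by_cases hk : k = k1 ∨ k = k2
      · have h7 := congrArg (fun p => p.coeff (d / 2)) h
        simp only [coeff_pert_half hd, coeff_zero, if_pos hk] at h7
        exact hε1 k h7
      · apply hne k
        unfold pert at h
        simpa [if_neg hk] using h
    refine InC_two hd _ (natDegree_pert m hdeg _ _ _) hne' α β hαβ t ?_ ?_ k2 hk2 ?_ ?_
    · intro k
      rw [coeff_pert_zero hd, h0]; ring
    · intro k
      rw [coeff_pert_top hd, h1]; ring
    · rw [coeff_pert_half hd, if_pos (Or.inr rfl)]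
      exact hε1 k2
    · have hk1m : k1 ∈ Finset.univ.erase k2 := Finset.mem_erase.mpr ⟨hk12, Finset.mem_univ _⟩
      have h3 : ∑ k ∈ Finset.univ.erase k2, (if t k = 0 then (pert m (fun _ => 0) (fun _ => 0)
          (fun k => if k = k1 ∨ k = k2 then ε else 0) k).coeff (d / 2) else 0) = A + ε := by
        have h4 : ∀ k ∈ Finset.univ.erase k2, (if t k = 0 then (pert m (fun _ => 0) (fun _ => 0)
            (fun k => if k = k1 ∨ k = k2 then ε else 0) k).coeff (d / 2) else 0) =
            (if t k = 0 then (m k).coeff (d / 2) else 0) + (if k = k1 then ε else 0) := by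
          intro k hkm
          have hkk := (Finset.mem_erase.mp hkm).1
          rw [coeff_pert_half hd]
          by_cases hk : k = k1
          · rw [hk, if_pos hk1, if_pos hk1, if_pos (Or.inl rfl), if_pos rfl]
          · rw [if_neg (by rintro (h | h) <;> contradiction : ¬ (k = k1 ∨ k = k2)), if_neg hk]
            simp
        rw [Finset.sum_congr rfl h4, Finset.sum_add_distrib, Finset.sum_ite_eq' _ k1,
          if_pos hk1m]
      rw [h3]
      exact hε2

/-- the equations suffice -/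
theorem InC_of_data (hd : 3 ≤ d) (m : Fin d → ℂ[X]) (hdeg : ∀ k, (m k).natDegree ≤ d)
    (hne : ∀ k, m k ≠ 0)
    (α β : ℂ) (hαβ : α ≠ 0 ∨ β ≠ 0) (t : Fin d → ℂ)
    (h0 : ∀ k, (m k).coeff 0 = α * t k) (h1 : ∀ k, (m k).coeff d = β * t k)
    (h2 : Even d → ∑ k, (m k).coeff (d / 2) * ∏ l ∈ Finset.univ.erase k, t l = 0) :
    InC (eigencompatibilityVariety 1 d) m := by
  classical
  by_cases he : Even d
  · by_cases hall : ∀ k, t k ≠ 0
    · refine InC_step2 hd m hdeg α β hαβ t hall h0 h1 fun he => ?_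
      have h3 := h2 he
      rw [sum_erase_eq t hall] at h3
      rcases mul_eq_zero.mp h3 with h3 | h3
      · exact absurd h3 (Finset.prod_ne_zero_iff.mpr fun k _ => hall k)
      · exact h3
    · push Not at hall
      obtain ⟨k0, hk0⟩ := hall
      by_cases hone : ∀ k, k ≠ k0 → t k ≠ 0
      · exact InC_one hd m hdeg hne α β hαβ t h0 h1 k0 hk0 hone (h2 he)
      · push Not at hone
        obtain ⟨k1, hk1, hk1'⟩ := hone
        exact InC_two' hd m hdeg hne α β hαβ t h0 h1 k1 k0 hk1 hk1' hk0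
  · refine InC_move hd m hdeg hne α β hαβ t h0 h1 (fun ε k => t k + ε) (fun _ _ => 0) ?_
      (fun _ => tendsto_const_nhds) ?_
    · intro k
      have := (tendsto_const_nhds (x := t k)).add tendsto_eps
      rwa [add_zero] at this
    · filter_upwards [eventually_all.mpr fun k => eventually_ne_zero_of_ne (t k)] with ε hε
      exact ⟨hε, fun h => absurd h he⟩

theorem InC_of_Eqs (hd : 3 ≤ d) (m : Fin d → ℂ[X]) (hdeg : ∀ k, (m k).natDegree ≤ d)
    (hne : ∀ k, m k ≠ 0) (h : Eqs m) : InC (eigencompatibilityVariety 1 d) m := by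
  obtain ⟨h1, h2⟩ := h
  have herase : ∀ k : Fin d, (Finset.univ.erase k).card = d - 1 := by
    intro k
    rw [Finset.card_erase_of_mem (Finset.mem_univ k), Finset.card_univ, Fintype.card_fin]
  have hsum : ∀ (t : Fin d → ℂ) (γ : ℂ) (s : ℕ), (∀ k, (m k).coeff s = γ * t k) →
      ∑ k, (m k).coeff (d / 2) * ∏ l ∈ Finset.univ.erase k, (m l).coeff s =
      γ ^ (d - 1) * ∑ k, (m k).coeff (d / 2) * ∏ l ∈ Finset.univ.erase k, t l := by
    intro t γ s hs
    rw [Finset.mul_sum]
    refine Finset.sum_congr rfl fun k _ => ?_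
    rw [Finset.prod_congr rfl (fun l _ => hs l), Finset.prod_mul_distrib, Finset.prod_const,
      herase]
    ring
  by_cases ha : ∃ k0, (m k0).coeff 0 ≠ 0
  · obtain ⟨k0, hk0⟩ := ha
    have e0 : ∀ k, (m k).coeff 0 = (m k0).coeff 0 * ((m k).coeff 0 / (m k0).coeff 0) := by
      intro k; field_simp
    have e1 : ∀ k, (m k).coeff d = (m k0).coeff d * ((m k).coeff 0 / (m k0).coeff 0) := by
      intro k
      have := h1 k k0
      field_simp
      linear_combination -this
    refine InC_of_data hd m hdeg hne ((m k0).coeff 0) ((m k0).coeff d) (Or.inl hk0)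
      (fun k => (m k).coeff 0 / (m k0).coeff 0) e0 e1 fun he => ?_
    have h3 := (h2 he).1
    rw [hsum _ _ 0 e0] at h3
    exact (mul_eq_zero.mp h3).resolve_left (pow_ne_zero _ hk0)
  · push Not at ha
    by_cases hb : ∃ k0, (m k0).coeff d ≠ 0
    · obtain ⟨k0, hk0⟩ := hb
      have e1 : ∀ k, (m k).coeff d = (m k0).coeff d * ((m k).coeff d / (m k0).coeff d) := by
        intro k; field_simp
      refine InC_of_data hd m hdeg hne 0 ((m k0).coeff d) (Or.inr hk0)
        (fun k => (m k).coeff d / (m k0).coeff d) (fun k => by rw [ha k, zero_mul]) e1 fun he => ?_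
      have h3 := (h2 he).2
      rw [hsum _ _ d e1] at h3
      exact (mul_eq_zero.mp h3).resolve_left (pow_ne_zero _ hk0)
    · push Not at hb
      refine InC_of_data hd m hdeg hne 1 1 (Or.inl one_ne_zero) (fun _ => 0)
        (fun k => by rw [ha k, mul_zero]) (fun k => by rw [hb k, mul_zero]) fun _ => ?_
      refine Finset.sum_eq_zero fun k _ => ?_
      rw [Finset.prod_const, herase, zero_pow (by omega), mul_zero]

theorem exists_uv (u v : ℂ) : ∃ x : V 1, uu x = u ∧ vv x = v := by
  refine ⟨![(u + v) / 2, (u - v) / (2 * Complex.I)], ?_, ?_⟩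
  · unfold uu
    simp only [Matrix.cons_val_zero, Matrix.cons_val_one]
    field_simp
    ring
  · unfold vv
    simp only [Matrix.cons_val_zero, Matrix.cons_val_one]
    field_simp
    ring

theorem eq_of_hev {P Q : ℂ[X]} (hP : P.natDegree ≤ d) (hQ : Q.natDegree ≤ d)
    (h : ∀ x : V 1, hev d P (uu x) (vv x) = hev d Q (uu x) (vv x)) : P = Q := by
  apply Polynomial.funext
  intro z
  obtain ⟨x, hx1, hx2⟩ := exists_uv z 1
  have := h x
  rw [hx1, hx2, hev_of_ne hP z one_ne_zero, hev_of_ne hQ z one_ne_zero] at this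
  simpa using this

theorem prod_map_two (S : Multiset (ℙ ℂ (V 1))) (x : V 1) :
    (S.map fun p => 2 * (x 0 * p.rep 1 - x 1 * p.rep 0)).prod =
      2 ^ (Multiset.card S) * (S.map fun p => x 0 * p.rep 1 - x 1 * p.rep 0).prod := by
  rw [Multiset.prod_map_mul, Multiset.map_const', Multiset.prod_replicate]

theorem schemeConfs_iff (hd : 3 ≤ d) (X : Conf 1 d) : X ∈ schemeConfs d ↔
    ∃ T : Tensor 1 d, ∀ k, ∃ c : ℂ, c ≠ 0 ∧ MM T k = C c * Fm (pts X k) := by
  unfold schemeConfs
  rw [Set.mem_ofPred_eq]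
  refine exists_congr fun T => forall_congr' fun k => ?_
  have hc : Multiset.card (pts X k) = d := (card_pts X k).trans (D_one hd)
  have h2 : (2 : ℂ) ^ d ≠ 0 := pow_ne_zero _ two_ne_zero
  have h3 : ∀ x : V 1, hev d (Fm (pts X k)) (uu x) (vv x) =
      2 ^ d * ((pts X k).map fun p => x 0 * p.rep 1 - x 1 * p.rep 0).prod := by
    intro x
    have := hev_Fm (pts X k) x
    rwa [prod_map_two, hc] at this
  constructor
  · rintro ⟨c, hc0, h⟩
    refine ⟨c / 2 ^ d, div_ne_zero hc0 h2, ?_⟩
    refine eq_of_hev (d := d) (natDegree_MM T k) ((natDegree_C_mul_le _ _).trans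
      ((natDegree_Fm _).trans hc.le)) fun x => ?_
    rw [hev_MM_eq, hev_smul, h3]
    have h4 : minorR T k x 0 1 = x 0 * contract T k x 1 - x 1 * contract T k x 0 := rfl
    rw [h4, h x]
    show c * _ = _
    have h5 : c / 2 ^ d * (2 ^ d * ((pts X k).map fun p => x 0 * p.rep 1 - x 1 * p.rep 0).prod) =
      c * ((pts X k).map fun p => x 0 * p.rep 1 - x 1 * p.rep 0).prod := by
      field_simp
    rw [h5]
    rfl
  · rintro ⟨c, hc0, h⟩
    refine ⟨c * 2 ^ d, mul_ne_zero hc0 h2, fun x => ?_⟩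
    have h4 : minorR T k x 0 1 = x 0 * contract T k x 1 - x 1 * contract T k x 0 := rfl
    rw [← h4, ← hev_MM_eq, h, hev_smul, h3, mul_assoc]
    rfl

theorem schemeConfs_sub (hd : 3 ≤ d) (X : Conf 1 d) (hX : X ∈ schemeConfs d) :
    Eqs (fun k => Fm (pts X k)) := by
  rw [schemeConfs_iff hd] at hX
  obtain ⟨T, hT⟩ := hX
  choose q hq hMq using hT
  rw [← Eqs_scale q hq]
  have : (fun k => C (q k) * Fm (pts X k)) = MM T := by
    funext k; exact (hMq k).symm
  rw [this]
  exact Eqs_MM hd T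

theorem eigenConfs_sub_schemeConfs (hd : 3 ≤ d) : eigenConfs 1 d ⊆ schemeConfs d := by
  rintro X ⟨T, hT⟩
  rw [schemeConfs_iff hd]
  refine ⟨T, fun k => ?_⟩
  obtain ⟨hnd, hp⟩ := hT k
  have hc : Multiset.card (pts X k) = d := (card_pts X k).trans (D_one hd)
  obtain ⟨Q, hQ, hMQ⟩ := exists_mul_Fm (pts X k) hnd 0 (MM T k)
    (by rw [hc, zero_add]; exact natDegree_MM T k) (by
      intro p hpm
      rw [hc, zero_add, ← isEigenpoint_iff']
      exact (hp p).mp hpm)
  refine ⟨Q.coeff 0, ?_, ?_⟩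
  · intro h0
    have hQ0 : Q = 0 := by rw [eq_C_of_natDegree_le_zero hQ, h0, C_0]
    have hM0 : MM T k = 0 := by rw [hMQ, hQ0, mul_zero]
    have hall : ∀ p, p ∈ pts X k := by
      intro p
      apply (hp p).mpr
      rw [isEigenpoint_iff', hM0]
      simp [hev]
    classical
    have hfin : (Set.univ : Set (ℙ ℂ (V 1))).Finite := by
      refine (Finset.finite_toSet (pts X k).toFinset).subset ?_
      intro p _
      simp [hall p]
    exact infinite_proj hfin
  · conv_lhs => rw [hMQ, eq_C_of_natDegree_le_zero hQ]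
    rw [mul_comm]

/-- the closure is cut out by the equations -/
theorem closure_eq (hd : 3 ≤ d) (E : Set (Conf 1 d)) (hE1 : eigenConfs 1 d ⊆ E)
    (hE2 : E ⊆ schemeConfs d) (y : Coord 1 d) : toConf y ∈ closure E ↔ Eqs (fun k => Fy y.1 k) := by
  have h1 := fun k => Fy_eq y k
  choose c hc hcF using h1
  have h2 : Eqs (fun k => Fm (pts (toConf y) k)) ↔ Eqs (fun k => Fy y.1 k) := by
    rw [← Eqs_scale c hc]
    simp only [hcF]
  rw [← h2]
  constructor
  · intro h
    have h3 : closure E ⊆ {X : Conf 1 d | Eqs (fun k => Fm (pts X k))} :=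
      closure_minimal (fun X hX => schemeConfs_sub hd X (hE2 hX)) isClosed_Eqs
    exact h3 h
  · intro h
    apply closure_mono hE1
    have h4 : InC (eigencompatibilityVariety 1 d) (fun k => Fm (pts (toConf y) k)) :=
      InC_of_Eqs hd _ (fun k => (natDegree_Fm _).trans
        ((card_pts (toConf y) k).trans (D_one hd)).le) (fun k => Fm_ne_zero _) h
    exact mem_of_InC h4 (toConf y) fun k => ⟨1, one_ne_zero, by rw [C_1, one_mul]⟩

end Pool.Agent.H875.EC1
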